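import Pool.Agent.V8H10.LT.Std

/-!
# The product of two copies of the Davis complex
-/

set_option autoImplicit false

noncomputable section

namespace Pool.Agent.V8H3.LT

open Pool.Agent.V8H10.LT

/-- The group `Γ²`. -/
abbrev Gam2 {V : Type} (G : SimpleGraph V) : Type := Gam G × Gam G

/-- The cellular chain complex of the product of two copies of the Davis complex of `W G` over `Γ²`. -/
def davis2 {V : Type} [Fintype V] [LinearOrder V] (G : SimpleGraph V) : Pool.Agent.N496.LT.GCx (Gam2 G) :=
  prod (davis G) (davis G)

/-- The subgroup `K²` of `Γ²`. -/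
def square {V : Type} {G : SimpleGraph V} (K : Subgroup (Gam G)) : Subgroup (Gam2 G) := K.prod K

instance {V : Type} {G : SimpleGraph V} (K : Subgroup (Gam G)) [K.Normal] : (square K).Normal :=
  Subgroup.prod_normal _ _

/-- `log |tors H_i(M_K)| / [Γ² : K²]`, where `M_K` is the quotient by `K²` of the product of two copies of the Davis
complex. -/
def rate2 {V : Type} [Fintype V] [LinearOrder V] {G : SimpleGraph V} (K : Subgroup (Gam G)) [K.Normal] (i : ℕ) : ℝ :=
  Real.log (torsion (quot (davis2 G) (square K)) i) / (square K).index

end Pool.Agent.V8H3.LT
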