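import Pool.Agent.V8H3.LT.Cert
import Pool.Agent.V8H3.LT.Sq

/-!
# The unconditional theorem for squares from a certificate
-/

set_option autoImplicit false

noncomputable section

namespace Pool.Agent.V8H3.LT

open Filter Topology Pool.Agent.V8H10.LT
open Pool.Agent.V8H64.Ck (Cl PL Wf rl grL octR full full_ok grL_adj of_PL)
open Pool.Agent.V8H54.LT (chk adjR adjR_iff exists_dbl numU)

/-- the conclusion -/
def Concl2 (d p u : ℕ) : Prop :=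
  ∃ (n : ℕ) (S : SimpleGraph (Fin n)), PLSphere (2 * d + 1) S ∧ IsResFin (Gam S) ∧ (free (davis S)).DetL2Acyclic ∧
    ∀ (K : ℕ → Subgroup (Gam S)) [∀ i, (K i).Normal], (∀ i, (K i).FiniteIndex) → Antitone K → ⨅ i, K i = ⊥ →
      ∀ b : ℝ, 0 < b → b < 2 ^ n / 2 ^ u → ∀ᶠ i in atTop, ∀ m, m = 2 * d ∨ m = 2 * d + 1 →
        b ^ 2 * Real.log p ≤ rate2 (K i) m

theorem concl2_of_dbl {N d p : ℕ} [Fact p.Prime] (hp : p ≠ 2) (hd : 1 ≤ d) {H : SimpleGraph (Fin N)}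
    (hH : Sp (2 * d + 1) N H) (Z : Pool.Agent.N496.LT.Dbl (ZMod p) H d)
    (c : Fin Z.n → Fin (d + 1)) (hc : ∀ v w a b, H.Adj (Z.j v a) (Z.j w b) → c v ≠ c w) :
    Concl2 d p Z.U.card := by
  obtain ⟨⟨hR, h2⟩, hP⟩ := hH
  obtain ⟨n, S, A, κ, Z', h1, -, -, h4, h5, h6, h7, h8⟩ := build2 H hd hR h2 Z c hc
  obtain ⟨e1, e2⟩ := Pool.Agent.N496.LT.mainG2 p1 Pool.Agent.V8H96.LT.p2g Pool.Agent.V8H74.LT.p3a
    Pool.Agent.V8H42.LT.p3s Pool.Agent.V8H54.LT.p4b Pool.Agent.V8H74.LT.p4r h4 κ h5 h6 p hp Z' h7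
  refine ⟨n, S, PLSphere.subdivided (Pool.Agent.V8H10.LT.subdivided h1) hP, resFin (G := Gam S) e1,
    Pool.Agent.V8H86.LT.p4a (Fin n) S h6, ?_⟩
  intro K hK hf ha hi b hb hb2
  rw [Fintype.card_fin, h8] at e2
  refine (@e2 K hK hf ha hi b hb hb2).mono fun i hi m hm => ?_
  unfold rate2
  rw [torsion_eq]
  exact hi m hm

/-- **The conclusion from a certificate.** -/
theorem concl2_of_cert {N d p : ℕ} [Fact p.Prime] (hp : p ≠ 2) (hd : 1 ≤ d) {rows : List ℕ}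
    (hf : full rows N = true) (hPL : PL (Sp (2 * d + 1)) rows) (V : List (ℕ × ℕ × ℕ))
    (S : List (List ℕ × ℕ)) (h : chk N d p (adjR rows) V S = true) : Concl2 d p (numU V) := by
  obtain ⟨h1, h2⟩ := full_ok rows N hf
  obtain ⟨Z, c, hc, -, hU⟩ := exists_dbl (H := grL rows N) (adj := adjR rows)
    (fun x y => by rw [adjR_iff, ← grL_adj hPL.wf x y]) h
  rw [← hU]
  exact concl2_of_dbl hp hd (of_PL (cl_sp (2 * d + 1)) h1 h2 hPL) Z c hc

end Pool.Agent.V8H3.LT
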