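import Pool.Agent.V8H3.LT.P1b

/-!
# Project LT: the growth of the number of top dimensional cycles (P1), conclusion
-/

set_option autoImplicit false

noncomputable section

namespace Pool.Agent.V8H3.LT

open Module Pool.Agent.W907.SG Pool.Agent.W461.SGN Pool.Agent.W397.SG Pool.Agent.N496.LT Pool.Agent.Y132.SI

/-- a smaller set of elements -/
def fmono {V : Type} {G : SimpleGraph V} {E E' : Finset (W G)} {Y : Type} (P : FSet G E Y) (h : E' ⊆ E) :
    FSet G E' Y where
  a := P.a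
  ev := P.ev
  inv := P.inv
  comm := P.comm
  ev_one := P.ev_one
  ev_mul := P.ev_mul
  ev_simple := P.ev_simple
  free := fun g hg x => P.free g (h hg) x

theorem p1 : P1 := by
  intro V F _ _ _ G d X ε h2 hε
  classical
  obtain ⟨N, hN⟩ := exists_nat_gt ((4 * 4 ^ X.n : ℝ) / ε)
  have hN' : (4 * 4 ^ X.n : ℝ) < N * ε := (div_lt_iff₀ hε).1 hN
  have hN0 : (0 : ℝ) < N := lt_of_le_of_lt (by positivity) hN
  have hN0' : 0 < N := by exact_mod_cast hN0
  obtain ⟨E0, hE01, hE02⟩ := exists_tor G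
  have h1 : ∀ v : Fin X.n, ∃ E : Finset (W G), (1 : W G) ∉ E ∧ (v ∉ X.U → ∀ (Y : Type) [Fintype Y] (P : FSet G E Y)
      (K : Submodule F (Y → F)), (∀ f ∈ K, ∀ y, f (P.a (X.j v true) y) = - f y) →
      (∀ f ∈ K, ∀ y, f (P.a (X.j v false) y) = - f y) → N * finrank F K ≤ Fintype.card Y) := by
    intro v
    by_cases hv : v ∈ X.U
    · exact ⟨∅, Finset.notMem_empty _, fun h => absurd hv h⟩
    · obtain ⟨E, hE1, hE2⟩ := small_dih G (X.j_adj v hv).1 (X.j_adj v hv).2 N
      exact ⟨E, hE1, fun _ Y _ P K h3 h4 => hE2 F Y P K h3 h4⟩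
  choose Ef hEf1 hEf2 using h1
  refine ⟨(Finset.univ).biUnion Ef ∪ E0, ?_, ?_⟩
  · rw [Finset.mem_union, Finset.mem_biUnion]
    rintro (⟨i, _, h⟩ | h)
    · exact hEf1 i h
    · exact hE01 h
  intro Y _ P S hS
  have hdim : ∀ T : Finset V, G.IsClique (T : Set V) → finrank F (ET F P.a T) * 2 ^ T.card = Fintype.card Y := by
    intro T hT
    refine ET_dim' h2 G P.a P.inv P.comm (fun T t ht hc => ?_) T hT
    exact exists_sigma G P.a P.ev P.ev_one P.ev_mul P.ev_simple (fun T hT g hg hg1 x =>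
      P.free g (Finset.mem_union_right _ (hE02 T hT g hg hg1)) x) T t ht hc
  obtain ⟨k, hk⟩ : ∃ k : ℕ, k = 2 * 2 ^ X.n * Fintype.card Y / N := ⟨_, rfl⟩
  have hKD : ∀ D : Finset (Fin X.n), Disjoint D X.U → finrank F (KD X P.a D) ≤ k := by
    intro D hD
    rw [hk, Nat.le_div_iff_mul_le hN0', mul_comm]
    refine (KD_small X P.a N D (fun v hv K h3 h4 => ?_)).trans ?_
    · have hvU : v ∉ X.U := Finset.disjoint_left.1 hD hv
      exact hEf2 v hvU Y (fmono P (Finset.subset_union_left.trans' (Finset.subset_biUnion_of_mem Ef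
        (Finset.mem_univ v)))) K h3 h4
    · have h5 : D.card ≤ X.n := by
        have := Finset.card_le_univ D
        rwa [Fintype.card_fin] at this
      have h6 : 2 ^ D.card ≤ 2 ^ X.n := Nat.pow_le_pow_right (by norm_num) h5
      nlinarith [Nat.zero_le (Fintype.card Y)]
  have h3 := growth X P.a hdim k hKD S hS
  have h4 := hdim _ (clique_U X (A := ∅) (le_refl X.U))
  rw [card_L] at h4
  have h5 : (k : ℝ) * N ≤ 2 * 2 ^ X.n * Fintype.card Y := by
    have h6 : k * N ≤ 2 * 2 ^ X.n * Fintype.card Y := by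
      rw [hk]
      exact Nat.div_mul_le_self _ _
    exact_mod_cast h6
  have h6 : (2 * (2 ^ X.n * k) : ℝ) ≤ ε * Fintype.card Y := by
    have h7 : (2 * (2 ^ X.n * k) : ℝ) * N ≤ (ε * Fintype.card Y) * N := by
      calc (2 * (2 ^ X.n * k) : ℝ) * N = 2 * 2 ^ X.n * (k * N) := by ring
        _ ≤ 2 * 2 ^ X.n * (2 * 2 ^ X.n * Fintype.card Y) := mul_le_mul_of_nonneg_left h5 (by positivity)
        _ = (4 * 4 ^ X.n) * Fintype.card Y := by
            rw [show (4 : ℝ) ^ X.n = 2 ^ X.n * 2 ^ X.n by rw [← mul_pow]; norm_num]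
            ring
        _ ≤ (N * ε) * Fintype.card Y := mul_le_mul_of_nonneg_right hN'.le (Nat.cast_nonneg _)
        _ = _ := by ring
    exact le_of_mul_le_mul_right h7 hN0
  have h7 : ((1 / 2 : ℝ) ^ X.U.card) * Fintype.card Y = finrank F (ET F P.a (L X X.U ∅)) := by
    rw [← h4]
    push_cast
    rw [mul_comm, mul_assoc, ← mul_pow]
    norm_num
  have h8 : (finrank F (ET F P.a (L X X.U ∅)) : ℝ) ≤ finrank F (ZZ G (pull F P.a) S ∅ (d + 1)) +
      2 * (2 ^ X.n * k) := by exact_mod_cast h3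
  rw [sub_mul, h7]
  linarith

end Pool.Agent.V8H3.LT
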