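import Pool.Agent.V8H3.LT.Asm
import Pool.Agent.V8H3.LT.P1c
import Pool.Agent.V8H54.LT.P4B
import Pool.Agent.V8H74.LT.P3A
import Pool.Agent.V8H74.LT.P4R
import Pool.Agent.V8H96.LT.P2G
import Pool.Agent.V8H26.LT.P5A
import Pool.Agent.V8H42.LT.P3T
import Pool.Agent.V8H64.LT.P5b
import Pool.Agent.V8H86.LT.P4A

/-!
# Project LT: the main theorem
-/

set_option autoImplicit false

noncomputable section

namespace Pool.Agent.V8H3.LT

theorem main : Main3H :=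
  main3h p1 Pool.Agent.V8H96.LT.p2g Pool.Agent.V8H74.LT.p3a Pool.Agent.V8H42.LT.p3t Pool.Agent.V8H54.LT.p4b
    Pool.Agent.V8H74.LT.p4r Pool.Agent.V8H86.LT.p4a Pool.Agent.V8H26.LT.p5a Pool.Agent.V8H64.LT.p5b

end Pool.Agent.V8H3.LT
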