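import Pool.Agent.V8H10.LT.FinStd
import Pool.Agent.V8H3.LT.Cert2

/-!
# Torsion growth of the squares along a chain of subgroups
-/

set_option autoImplicit false

noncomputable section

namespace Pool.Agent.V8H3.LT

open Filter Topology Pool.Agent.V8H10.LT

/-- There is a decreasing sequence of normal subgroups `L i` of finite index of `G`, with trivial intersection, for
which `log |tors H_k(C / L i)| / [G : L i]` does not converge to `0`. -/
def Grows {G : Type} [Group G] (C : Pool.Agent.N496.LT.GCx G) (k : ℕ) : Prop :=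
  ∃ (L : ℕ → Subgroup G) (_ : ∀ i, (L i).Normal), (∀ i, (L i).FiniteIndex) ∧ Antitone L ∧ ⨅ i, L i = ⊥ ∧
    ¬ Tendsto (fun i => Real.log (torsion (quot C (L i)) k) / (L i).index) atTop (𝓝 0)

/-- the squares of a residual chain form a residual chain -/
theorem square_iInf {V : Type} {G : SimpleGraph V} (K : ℕ → Subgroup (Gam G)) (h : ⨅ i, K i = ⊥) :
    ⨅ i, square (K i) = ⊥ := by
  rw [eq_bot_iff]
  intro x hx
  rw [Subgroup.mem_iInf] at hx
  have h1 : ∀ y : Gam G, (∀ i, y ∈ K i) → y = 1 := by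
    intro y hy
    have : y ∈ ⨅ i, K i := Subgroup.mem_iInf.2 hy
    rw [h] at this
    exact Subgroup.mem_bot.1 this
  obtain ⟨x1, x2⟩ := x
  have hx' : ∀ i, x1 ∈ K i ∧ x2 ∈ K i := by
    intro i
    have := hx i
    unfold square at this
    rw [Subgroup.mem_prod] at this
    exact this
  rw [Subgroup.mem_bot, h1 x1 fun i => (hx' i).1, h1 x2 fun i => (hx' i).2]
  rfl

theorem square_antitone {V : Type} {G : SimpleGraph V} (K : ℕ → Subgroup (Gam G)) (h : Antitone K) :
    Antitone fun i => square (K i) := fun _ _ hij => Subgroup.prod_mono (h hij) (h hij)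

theorem square_finiteIndex {V : Type} {G : SimpleGraph V} (K : Subgroup (Gam G)) (h : K.FiniteIndex) :
    (square K).FiniteIndex := by
  constructor
  have h1 := h.index_ne_zero
  unfold square
  rw [Subgroup.index_prod]
  exact Nat.mul_ne_zero h1 h1

/-- **The final statement for squares.** -/
theorem final2_of_concl {d p u : ℕ} (hp : 1 < p) (h : Concl2 d p u) :
    ∃ (n : ℕ) (S : SimpleGraph (Fin n)), PLSphere (2 * d + 1) S ∧ IsResFin (Gam S) ∧
      (free (davis S)).DetL2Acyclic ∧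
      (∀ (K : ℕ → Subgroup (Gam S)) [∀ i, (K i).Normal], (∀ i, (K i).FiniteIndex) → Antitone K → ⨅ i, K i = ⊥ →
        ∀ b : ℝ, 0 < b → b < 2 ^ n / 2 ^ u → ∀ᶠ i in atTop, b ^ 2 * Real.log p ≤ rate2 (K i) (2 * d) ∧
          b ^ 2 * Real.log p ≤ rate2 (K i) (2 * d + 1)) ∧
      Grows (davis2 S) (2 * d) ∧ Grows (davis2 S) (2 * d + 1) := by
  obtain ⟨n, S, h1, h2, h3, h4⟩ := h
  refine ⟨n, S, h1, h2, h3, fun K _ a b c B hB hB' => ?_, ?_⟩
  · exact (h4 K a b c B hB hB').mono fun i hi => ⟨hi _ (.inl rfl), hi _ (.inr rfl)⟩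
  · have key : ∀ m, m = 2 * d ∨ m = 2 * d + 1 → Grows (davis2 S) m := by
      intro m hm
      obtain ⟨K, k1, k2, k3, k4⟩ := h2
      have := k1
      refine ⟨fun i => square (K i), fun i => inferInstance, fun i => square_finiteIndex (K i) (k2 i),
        square_antitone K k3, square_iInf K k4, fun ht => ?_⟩
      have hpos : (0 : ℝ) < 2 ^ n / 2 ^ u / 2 := by positivity
      have hlt : (2 : ℝ) ^ n / 2 ^ u / 2 < 2 ^ n / 2 ^ u := by
        have : (0 : ℝ) < 2 ^ n / 2 ^ u := by positivity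
        linarith
      have h5 := h4 K k2 k3 k4 _ hpos hlt
      have hlog : 0 < Real.log (p : ℝ) := Real.log_pos (by exact_mod_cast hp)
      have h6 : (0 : ℝ) < (2 ^ n / 2 ^ u / 2) ^ 2 * Real.log p := mul_pos (pow_pos hpos 2) hlog
      have h7 := ht.eventually (gt_mem_nhds h6)
      obtain ⟨i, hi1, hi2⟩ := (h5.and h7).exists
      exact absurd (hi1 m hm) (not_le.2 hi2)
    exact ⟨key _ (.inl rfl), key _ (.inr rfl)⟩

end Pool.Agent.V8H3.LT
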