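import Pool.Agent.N496.CV.Rel
import Pool.Agent.N496.LT.MainG

/-!
# Project LT: assembly
-/

set_option autoImplicit false

open scoped Matrix

noncomputable section

namespace Pool.Agent.V8H3.LT

open Module Filter Topology Pool.Agent.W907.SG Pool.Agent.W907.SM Pool.Agent.W461.SGN Pool.Agent.R782.Bal
open Pool.Agent.N496.LT Pool.Agent.N504.RS
open Pool.Agent.TH652.Above (HSph singer_of_above lv_univ)
open Pool.Agent.N504.RS.Two (HSph2 e1_two emb_of_hsph2)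

/-- The construction of `rel3` (helper504), with the colouring and the position of the old vertices as a part of the
conclusion. -/
theorem rel3A (hC2 : C2) {d N : ℕ} (H : SimpleGraph (Fin N)) (hd : 1 ≤ d)
    (hO : ∀ (m : ℕ) (S : SimpleGraph (Fin m)), Sub H S → Obs S (2 * (d + 1))) (B : Set (Fin N))
    (c : Fin N → Fin (d + 1)) (hc : ∀ u ∈ B, ∀ v ∈ B, H.Adj u v → c u ≠ c v) :
    ∃ (m : ℕ) (h : N ≤ m) (S : SimpleGraph (Fin m)), Sub H S ∧
      (∀ u ∈ B, ∀ v ∈ B, S.Adj (Fin.castLE h u) (Fin.castLE h v) ↔ H.Adj u v) ∧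
      ∃ (κ : Fin m → Fin (d + 1)) (A : Set (Fin m)), Mid S (fun x => (κ x : ℕ)) A ∧ Obs S (2 * (d + 1)) ∧
        ∀ x : Fin N, Fin.castLE h x ∈ A := by
  classical
  -- the colouring
  obtain ⟨code, hcode⟩ : ∃ code : Fin (d + 1) → ℕ, code = fun i : Fin (d + 1) => if (i : ℕ) < d then 2 * (i : ℕ) + 1 else 2 * d := ⟨_, rfl⟩
  have hcode_inj : Function.Injective code := by
    intro i j hij
    rw [hcode] at hij
    dsimp only at hij
    have := i.2
    have := j.2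
    apply Fin.ext
    split_ifs at hij <;> omega
  have hcode_pos : ∀ i, 0 < code i := by
    intro i
    rw [hcode]
    dsimp only
    split_ifs <;> omega
  have hcode_le : ∀ i, code i ≤ 2 * d := by
    intro i
    rw [hcode]
    dsimp only
    split_ifs <;> omega
  have hcode_div : ∀ i, code i / 2 = i := by
    intro i
    rw [hcode]
    dsimp only
    have := i.2
    split_ifs <;> omega
  obtain ⟨κ, hκ⟩ : ∃ κ : ℕ → ℕ, κ = fun x => if h : ∃ v, v ∈ B ∧ x = (v : ℕ) then code (c h.choose) else 0 :=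
    ⟨_, rfl⟩
  have hκj : ∀ v ∈ B, κ (v : ℕ) = code (c v) := by
    intro v hv
    have h1 : ∃ v', v' ∈ B ∧ (v : ℕ) = (v' : ℕ) := ⟨v, hv, rfl⟩
    rw [hκ]
    dsimp only
    rw [dif_pos h1]
    have h2 : h1.choose = v := Fin.ext h1.choose_spec.2.symm
    rw [h2]
  have hκ0 : ∀ x, κ x ≠ 0 → ∃ v, v ∈ B ∧ x = (v : ℕ) := by
    intro x hx
    by_contra h
    apply hx
    rw [hκ]
    dsimp only
    rw [dif_neg h]
  -- the graph on ℕ
  obtain ⟨HN, hHN⟩ : ∃ HN : SimpleGraph ℕ, HN = H.map Fin.valEmbedding := ⟨_, rfl⟩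
  have hadjN : ∀ x y : Fin N, HN.Adj (x : ℕ) (y : ℕ) ↔ H.Adj x y := by
    intro x y
    rw [hHN]
    exact SimpleGraph.map_adj_apply
  have hadjN' : ∀ x y : ℕ, HN.Adj x y → ∃ a b : Fin N, H.Adj a b ∧ (a : ℕ) = x ∧ (b : ℕ) = y := by
    intro x y h
    rw [hHN, SimpleGraph.map_adj] at h
    exact h
  have hBd : Bd N HN := by
    intro x y h
    obtain ⟨a, b, -, rfl, -⟩ := hadjN' x y h
    exact a.2
  have hcomap : HN.comap (Fin.val : Fin N → ℕ) = H := by
    ext x y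
    exact hadjN x y
  have hOH : Obs H (2 * (d + 1)) := hO N H Sub.refl
  have hcl : ∀ Q : Finset ℕ, HN.IsClique (Q : Set ℕ) → Q.card ≤ 2 * d + 1 := by
    intro Q hQ
    rcases Nat.lt_or_ge Q.card 2 with h | h
    · omega
    have h1 : ∀ x ∈ Q, x < N := by
      intro x hx
      obtain ⟨y, hy, hxy⟩ := Finset.exists_mem_ne (by omega : 1 < Q.card) x
      exact hBd x y (hQ hx hy hxy.symm)
    have h2 : (Q.attachFin h1).card = Q.card := Finset.card_attachFin _ _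
    have h3 := obs_clique hOH (Q.attachFin h1) (by
      intro x hx y hy hxy
      rw [Finset.mem_coe, Finset.mem_attachFin] at hx hy
      exact (hadjN x y).1 (hQ hx hy fun h => hxy (Fin.ext h)))
    omega
  obtain ⟨n1, G1, κ1, hn1, hsub1, hB1, hκ1, hκ1le, hprop1, hadj1⟩ := hC2 d N HN κ hd hBd hcl
    (by
      intro x
      by_cases h : κ x = 0
      · omega
      · obtain ⟨v, hv, rfl⟩ := hκ0 x h
        rw [hκj v hv]
        exact hcode_le _)
    (by
      intro x y hxy he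
      by_contra h
      obtain ⟨v, hv, rfl⟩ := hκ0 x h
      obtain ⟨w, hw, rfl⟩ := hκ0 y (by rwa [← he])
      rw [hκj v hv, hκj w hw] at he
      exact hc v hv w hw ((hadjN _ _).1 hxy) (hcode_inj he))
  obtain ⟨n2, G2, κ2, hn2, hsub2, hB2, hadj2, hκ2, hκ2', hmid⟩ := tri n1 G1 (fun x => κ1 x / 2) hB1 (by
    intro x y z hxy hyz hxz e1 e2
    have h1 := hprop1 x y hxy
    have h2 := hprop1 y z hyz
    have h3 := hprop1 x z hxz
    omega)
  have hsub : Sub H (G2.comap (Fin.val : Fin n2 → ℕ)) := by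
    have := (hsub1.trans hsub2).sub hBd
    rwa [hcomap] at this
  obtain ⟨S, hSd⟩ : ∃ S : SimpleGraph (Fin n2), S = G2.comap (Fin.val : Fin n2 → ℕ) := ⟨_, rfl⟩
  have hSadj : ∀ x y : Fin n2, S.Adj x y ↔ G2.Adj x y := by
    intro x y
    rw [hSd]
    rfl
  rw [← hSd] at hsub
  obtain ⟨A, hA⟩ : ∃ A : Set (Fin n2), A = {x : Fin n2 | (x : ℕ) < n1} := ⟨_, rfl⟩
  have hmemA : ∀ x : Fin n2, x ∈ A ↔ (x : ℕ) < n1 := by
    intro x
    rw [hA]
    rfl
  have hM : Mid S (fun x => κ2 x) A := by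
    refine ⟨fun u hu v hv huv h => ?_, fun m hm => ?_⟩
    · rw [hmemA] at hu hv
      rw [hSadj, hadj2 u v hu hv] at huv
      rw [hκ2 _ hu, hκ2 _ hv] at h
      exact huv.2 h
    · rw [hmemA, not_lt] at hm
      obtain ⟨s, t, hs, ht, hst, h1, h2, h3, h4, h5, h6⟩ := hmid m hm m.2
      refine ⟨⟨s, by omega⟩, (hmemA _).2 hs, ⟨t, by omega⟩, (hmemA _).2 ht, fun h => hst (congrArg Fin.val h), ?_, ?_,
        ?_, h4, h5, ?_⟩
      · rw [hSadj]; exact h1
      · rw [hSadj]; exact h2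
      · rw [hSadj]; exact h3
      · intro u hu hus hut
        rw [hSadj] at hu
        rw [hSadj, hSadj]
        exact h6 u hu (fun h => hus (Fin.ext h)) fun h => hut (Fin.ext h)
  have hOS : Obs S (2 * (d + 1)) := hO n2 S hsub
  have hNn : N ≤ n2 := by omega
  have hlt : ∀ x : Fin n2, κ2 x < d + 1 := by
    intro x
    obtain ⟨y, hy⟩ := hκ2' x
    rw [hy]
    have := hκ1le y
    show κ1 y / 2 < d + 1
    omega
  refine ⟨n2, hNn, S, hsub, ?_, fun x => ⟨κ2 x, hlt x⟩, A, hM, hOS, fun x => (hmemA _).2 (by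
    rw [Fin.val_castLE]
    omega)⟩
  intro u hu v hv
  have h2 : (u : ℕ) < n1 := by omega
  have h3 : (v : ℕ) < n1 := by omega
  rw [hSadj, Fin.val_castLE, Fin.val_castLE, hadj2 _ _ h2 h3, hadj1 _ _ u.2 v.2, hadjN, hκ1 _ u.2, hκ1 _ v.2,
    hκj u hu, hκj v hv, hcode_div, hcode_div]
  constructor
  · rintro ⟨⟨h, -⟩, -⟩
    exact h
  · intro h
    have h1 := hc u hu v hv h
    exact ⟨⟨h, fun h4 => h1 (hcode_inj h4)⟩, fun h4 => h1 (Fin.ext h4)⟩



/-- the subdivision, with the doubled cycle -/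
theorem build2 {F : Type} [Field F] {d N : ℕ} (H : SimpleGraph (Fin N)) (hd : 1 ≤ d)
    (hS : HSph (2 * d + 1) H) (hS2 : HSph2 (2 * d + 1) H) (Z : Dbl F H d)
    (c : Fin Z.n → Fin (d + 1)) (hc : ∀ v w a b, H.Adj (Z.j v a) (Z.j w b) → c v ≠ c w) :
    ∃ (m : ℕ) (S : SimpleGraph (Fin m)) (A : Set (Fin m)) (κ : Fin m → Fin (d + 1)) (Z' : Dbl F S d),
      Sub H S ∧ HSph (2 * d + 1) S ∧ HSph2 (2 * d + 1) S ∧ MidP S A ∧
      (∀ u ∈ A, ∀ v ∈ A, S.Adj u v → κ u ≠ κ v) ∧ (∀ i, L2Van S i) ∧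
      (∀ v b, Z'.j v b ∈ A) ∧ Z'.U.card = Z.U.card := by
  classical
  obtain ⟨B, hB⟩ : ∃ B : Set (Fin N), B = {x | ∃ v b, x = Z.j v b} := ⟨_, rfl⟩
  have hmemB : ∀ v b, Z.j v b ∈ B := by
    intro v b
    rw [hB]
    exact ⟨v, b, rfl⟩
  obtain ⟨c', hc'⟩ : ∃ c' : Fin N → Fin (d + 1), ∀ v b, c' (Z.j v b) = c v := by
    refine ⟨fun x => if h : ∃ v b, x = Z.j v b then c h.choose else 0, fun v b => ?_⟩
    have h1 : ∃ v' b', Z.j v b = Z.j v' b' := ⟨v, b, rfl⟩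
    dsimp only
    rw [dif_pos h1]
    have h2 : h1.choose = v := by
      by_contra h3
      obtain ⟨b', hb'⟩ := h1.choose_spec
      exact Z.j_ne _ _ h3 b' b hb'.symm
    rw [h2]
  obtain ⟨m, h, S, h1, h2, κ, A, h3, h4, h5⟩ := rel3A (c2 c1) H hd
    (fun m S hm => (emb_of_hsph2 (sub_hsph2 hm hS2) (by omega)).obs) B c' (by
      intro u hu v hv huv
      rw [hB] at hu hv
      obtain ⟨u', a, rfl⟩ := hu
      obtain ⟨v', b, rfl⟩ := hv
      rw [hc', hc']
      exact hc u' v' a b huv)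
  have hSS := h1.hsph e1 hS
  have hLV : ∀ (C : Set (Fin m)) (i : ℕ), d < i → LV (S.induce C) i := fun C i hi =>
    her (d + 1) S (fun x => (κ x : ℕ)) A (Finset.range (d + 1)) (Finset.card_range _)
      (fun x => Finset.mem_range.2 (κ x).2) h3 h4 C i hi
  have hL : ∀ i, L2Van S i := by
    intro i
    refine singer_of_above hSS (fun i hi => ?_) i (by omega)
    have h6 := hLV Set.univ i (by omega)
    rw [lv_univ] at h6
    exact h6 _ _
  have hM : MidP S A := by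
    intro v hv
    obtain ⟨s, hs, t, ht, hst, h6, h7, h8, -, -, h9⟩ := h3.mid v hv
    exact ⟨s, hs, t, ht, hst, h6, h7, h8, fun u hu hus hut => ⟨(h9 u hu hus hut).1, (h9 u hu hus hut).2.1⟩⟩
  have hkey : ∀ v w a b, S.Adj (Fin.castLE h (Z.j v a)) (Fin.castLE h (Z.j w b)) ↔ H.Adj (Z.j v a) (Z.j w b) :=
    fun v w a b => h2 _ (hmemB v a) _ (hmemB w b)
  have hinj : ∀ x y : Fin N, Fin.castLE h x = Fin.castLE h y → x = y := fun x y hxy => by
    have := congrArg Fin.val hxy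
    rw [Fin.val_castLE, Fin.val_castLE] at this
    exact Fin.ext this
  refine ⟨m, S, A, κ, ⟨Z.n, Z.z, fun v b => Fin.castLE h (Z.j v b), Z.U, Z.z_ne, Z.z_card, Z.z_cyc, ?_, ?_, ?_, ?_, ?_⟩,
    h1, hSS, sub_hsph2 h1 hS2, hM, ?_, hL, ?_, rfl⟩
  · intro v w hvw a b h6
    exact Z.j_ne v w hvw a b (hinj _ _ h6)
  · intro v hv
    rw [Z.j_U v hv]
  · intro v hv
    obtain ⟨h6, h7⟩ := Z.j_adj v hv
    exact ⟨fun h8 => h6 (hinj _ _ h8), fun h8 => h7 ((hkey _ _ _ _).1 h8)⟩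
  · intro σ hσ v hv w hw hvw a b
    exact (hkey _ _ _ _).2 (Z.clique σ hσ v hv w hw hvw a b)
  · intro v hv w hw hvw
    exact (hkey _ _ _ _).2 (Z.cliqueU v hv w hw hvw)
  · intro u hu v hv huv he
    exact h3.col u hu v hv huv (congrArg Fin.val he)
  · intro v b
    exact h5 _

/-- The main theorem. `H` is a flag homology sphere of dimension `2 d` (over the reals and over the field with two
elements), `Z` is a doubled mod `p` cycle of dimension `d` in `H`, the vertices of which are properly coloured by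
`d + 1` colours. -/
def Main3H : Prop := ∀ (d N : ℕ) (H : SimpleGraph (Fin N)), 1 ≤ d → HSph (2 * d + 1) H → HSph2 (2 * d + 1) H →
    ∀ (p : ℕ) [Fact p.Prime], p ≠ 2 → ∀ (Z : Dbl (ZMod p) H d) (c : Fin Z.n → Fin (d + 1)),
    (∀ v w a b, H.Adj (Z.j v a) (Z.j w b) → c v ≠ c w) →
    ∃ (n : ℕ) (S : SimpleGraph (Fin n)), Sub H S ∧ HSph (2 * d + 1) S ∧ HSph2 (2 * d + 1) S ∧ (∀ i, L2Van S i) ∧
    ResFin (th S).ker ∧
    (davis S).toFree.DetL2Acyclic ∧
    ((davis S).prod ((davis S).prod (davis S))).toFree.DetL2Acyclic ∧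
    ((davis S).prod ((davis S).prod (davis S))).toFree.l2torsion = 0 ∧
    ∀ (K : ℕ → Subgroup (th S).ker) [∀ i, (K i).Normal], (∀ i, (K i).FiniteIndex) → Antitone K →
      ⨅ i, K i = ⊥ → ∀ c : ℝ, 0 < c → c < 2 ^ n / 2 ^ Z.U.card → ∀ᶠ i in atTop, c ^ 3 * Real.log p ≤
        Real.log ((((davis S).prod ((davis S).prod (davis S))).quot
          ((K i).prod ((K i).prod (K i)))).torsOrder (3 * d + 1)) / ((K i).prod ((K i).prod (K i))).index

theorem main3h (hP1 : P1) (hP2 : P2G) (hP3 : P3A) (hP3T : P3T) (hP4 : P4B) (hR : P4R) (hA : P4A) (hP5A : P5A)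
    (hP5B : P5B) : Main3H := by
  intro d N H hd hS hS2 p _ hp Z c hc
  obtain ⟨m, S, A, κ, Z', h1, h2, h3, h4, h5, h6, h7, h8⟩ := build2 H hd hS hS2 Z c hc
  obtain ⟨e1, e2, e3, e4, e5⟩ := mainG3 hP1 hP2 hP3 hP3T hP4 hR hA hP5A hP5B h4 κ h5 h6 p hp Z' h7
  refine ⟨m, S, h1, h2, h3, h6, e1, e2, e3, e4, ?_⟩
  rw [Fintype.card_fin, h8] at e5
  exact e5

end Pool.Agent.V8H3.LT
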