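import Pool.Agent.V8H3.LT.PLS
import Pool.Agent.V8H3.LT.Fin
import Pool.Agent.V8H10.LT.Brid
import Pool.Agent.V8H64.Ck.Glue

/-!
# The unconditional theorem from a certificate
-/

set_option autoImplicit false

noncomputable section

namespace Pool.Agent.V8H3.LT

open Filter Topology Pool.Agent.V8H10.LT
open Pool.Agent.V8H64.Ck (Cl PL Wf rl grL octR full full_ok wf_octR octG oct_hsph oct_hsph2 rl_octR_bit grL_adj
  PL_of of_PL cl_sph Sph)
open Pool.Agent.V8H54.LT (chk adjR adjR_iff exists_dbl numU)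

theorem octG_eq (k : ℕ) : octG k = crossPolytope k := by
  ext x y
  unfold crossPolytope
  rw [SimpleGraph.fromRel_adj]
  show ((x : ℕ) / 2 ≠ (y : ℕ) / 2) ↔ _
  constructor
  · intro h
    exact ⟨fun h1 => h (by rw [h1]), Or.inl h⟩
  · rintro ⟨-, h | h⟩
    · exact h
    · exact Ne.symm h

/-- the property for the certificates -/
def Sp (k : ℕ) (n : ℕ) (G : SimpleGraph (Fin n)) : Prop := Sph k n G ∧ PLSphere k G

theorem cl_sp (k : ℕ) : Cl (Sp k) where
  sub n G s t hst h := ⟨(cl_sph k).sub n G s t hst h.1, by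
    have := PLSphere.sub G s t hst h.2
    rwa [subdiv_eq] at this⟩
  inv n G s t hst h := ⟨(cl_sph k).inv n G s t hst h.1, by
    have h2 := h.2
    rw [← subdiv_eq] at h2
    exact PLSphere.inv G s t hst h2⟩
  rel n G σ h := ⟨(cl_sph k).rel n G σ h.1, PLSphere.relabel G σ h.2⟩

/-- the start of a certificate -/
theorem PL_oct (k : ℕ) (hk : 2 ≤ k) : PL (Sp k) (octR k) := by
  refine PL_of (n := 2 * k) ?_ (wf_octR k) ?_ ?_
  · unfold octR
    rw [List.length_map, List.length_range]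
  · intro i hi h
    have h1 := rl_octR_bit k i (if i / 2 = 0 then 2 else 0)
    rw [h, Nat.zero_testBit] at h1
    split_ifs at h1 with h2
    · simp [hi, h2] at h1
      omega
    · simp [hi] at h1
      omega
  · have h : grL (octR k) (2 * k) = octG k := by
      ext i j
      rw [grL_adj (wf_octR k)]
      have h1 := rl_octR_bit k i j
      unfold rl at h1
      rw [h1]
      simp only [Bool.and_eq_true, decide_eq_true_eq]
      exact ⟨fun h => h.2.2, fun h => ⟨i.2, j.2, h⟩⟩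
    rw [h]
    exact ⟨⟨oct_hsph k, oct_hsph2 k⟩, by rw [octG_eq]; exact PLSphere.base⟩

/-- the conclusion -/
def Concl (d p u : ℕ) : Prop :=
  ∃ (n : ℕ) (S : SimpleGraph (Fin n)), PLSphere (2 * d + 1) S ∧ IsResFin (Gam S) ∧ (free (davis S)).DetL2Acyclic ∧
    (free (davis3 S)).DetL2Acyclic ∧ (free (davis3 S)).l2torsion = 0 ∧
    ∀ (K : ℕ → Subgroup (Gam S)) [∀ i, (K i).Normal], (∀ i, (K i).FiniteIndex) → Antitone K → ⨅ i, K i = ⊥ →
      (∀ b : ℝ, 0 < b → b < 2 ^ n / 2 ^ u → ∀ᶠ i in atTop, b ^ 3 * Real.log p ≤ rate (K i) (3 * d + 1)) ∧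
      ¬ Tendsto (fun i => rate (K i) (3 * d + 1)) atTop (𝓝 ((-1) ^ (3 * d + 1) * (free (davis3 S)).l2torsion))

theorem concl_of_dbl {N d p : ℕ} [Fact p.Prime] (hp : p ≠ 2) (hd : 1 ≤ d) {H : SimpleGraph (Fin N)}
    (hH : Sp (2 * d + 1) N H) (Z : Pool.Agent.N496.LT.Dbl (ZMod p) H d)
    (c : Fin Z.n → Fin (d + 1)) (hc : ∀ v w a b, H.Adj (Z.j v a) (Z.j w b) → c v ≠ c w) :
    Concl d p Z.U.card := by
  obtain ⟨⟨hR, h2⟩, hP⟩ := hH
  obtain ⟨n, S, h1, -, -, -, h5, h6, h7, h8, h9⟩ := Pool.Agent.V8H3.LT.main d N H hd hR h2 p hp Z c hc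
  refine ⟨n, S, PLSphere.subdivided (Pool.Agent.V8H10.LT.subdivided h1) hP, resFin (G := Gam S) h5, h6, h7, h8, ?_⟩
  intro K hK hf ha hi
  have g1 : ∀ b : ℝ, 0 < b → b < 2 ^ n / 2 ^ Z.U.card → ∀ᶠ i in atTop,
      b ^ 3 * Real.log p ≤ rate (K i) (3 * d + 1) := by
    intro b hb hb2
    refine (@h9 K hK hf ha hi b hb hb2).mono fun i hi => ?_
    unfold rate
    rw [torsion_eq]
    exact hi
  refine ⟨g1, fun ht => ?_⟩
  have hp1 : (1 : ℝ) < p := by exact_mod_cast (Fact.out : p.Prime).one_lt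
  have hlog : 0 < Real.log p := Real.log_pos hp1
  have hq : (0 : ℝ) < 2 ^ n / 2 ^ Z.U.card := by positivity
  have e1 : (free (davis3 S)).l2torsion = 0 := h8
  rw [e1, mul_zero] at ht
  have g2 := g1 (2 ^ n / 2 ^ Z.U.card / 2) (by positivity) (by linarith)
  have hpos : (0 : ℝ) < (2 ^ n / 2 ^ Z.U.card / 2) ^ 3 * Real.log p := by positivity
  have g3 := (tendsto_order.1 ht).2 _ hpos
  obtain ⟨i, hi1, hi2⟩ := (g2.and g3).exists
  exact absurd hi2 (not_lt.2 hi1)

/-- **The conclusion from a certificate.** -/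
theorem concl_of_cert {N d p : ℕ} [Fact p.Prime] (hp : p ≠ 2) (hd : 1 ≤ d) {rows : List ℕ}
    (hf : full rows N = true) (hPL : PL (Sp (2 * d + 1)) rows) (V : List (ℕ × ℕ × ℕ))
    (S : List (List ℕ × ℕ)) (h : chk N d p (adjR rows) V S = true) : Concl d p (numU V) := by
  obtain ⟨h1, h2⟩ := full_ok rows N hf
  obtain ⟨Z, c, hc, -, hU⟩ := exists_dbl (H := grL rows N) (adj := adjR rows)
    (fun x y => by rw [adjR_iff, ← grL_adj hPL.wf x y]) h
  rw [← hU]
  exact concl_of_dbl hp hd (of_PL (cl_sp (2 * d + 1)) h1 h2 hPL) Z c hc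

end Pool.Agent.V8H3.LT
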