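import Pool.Agent.N496.LT.Stm2

/-!
# Project LT: linear algebra, and the smallness of the common antiinvariants of two reflections
-/

set_option autoImplicit false

noncomputable section

namespace Pool.Agent.V8H3.LT

open Module Pool.Agent.W907.SG Pool.Agent.W461.SGN Pool.Agent.W397.SG Pool.Agent.N496.LT Pool.Agent.Y132.SI

section la

variable {F E : Type} [Field F] [AddCommGroup E] [Module F E] [FiniteDimensional F E]

theorem finrank_map_add {E' : Type} [AddCommGroup E'] [Module F E'] (f : E →ₗ[F] E') (Q : Submodule F E) :
    finrank F Q = finrank F (Q.map f) + finrank F (Q ⊓ LinearMap.ker f : Submodule F E) := by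
  have h1 := (f.domRestrict Q).finrank_range_add_finrank_ker
  rw [← h1]
  congr 1
  · rw [LinearMap.range_domRestrict]
  · rw [LinearMap.ker_domRestrict]
    have e : Submodule.comap Q.subtype (LinearMap.ker f) = (Q ⊓ LinearMap.ker f).submoduleOf Q := by
      ext x
      constructor
      · intro h
        exact ⟨x.2, h⟩
      · intro h
        exact h.2
    rw [e]
    exact (Submodule.submoduleOfEquivOfLe inf_le_left).finrank_eq

/-- a subspace meets the kernels of finitely many maps with small images in a large subspace -/
theorem codim_inf {ι : Type} {E' : ι → Type} [∀ i, AddCommGroup (E' i)] [∀ i, Module F (E' i)]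
    (f : ∀ i, E →ₗ[F] E' i) (Q : Submodule F E) (k : ι → ℕ)
    (h : ∀ i, finrank F (Q.map (f i)) ≤ k i) (s : Finset ι) :
    ∃ Q' : Submodule F E, Q' ≤ Q ∧ (∀ i ∈ s, ∀ x ∈ Q', f i x = 0) ∧
      finrank F Q ≤ finrank F Q' + ∑ i ∈ s, k i := by
  classical
  induction s using Finset.induction_on with
  | empty => exact ⟨Q, le_rfl, fun i hi => absurd hi (Finset.notMem_empty i), by simp⟩
  | insert i s hi ih =>
    obtain ⟨Q', h1, h2, h3⟩ := ih
    refine ⟨Q' ⊓ LinearMap.ker (f i), inf_le_left.trans h1, ?_, ?_⟩
    · intro j hj x hx
      rcases Finset.mem_insert.1 hj with rfl | hj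
      · exact hx.2
      · exact h2 j hj x hx.1
    · rw [Finset.sum_insert hi]
      have h4 := finrank_map_add (f i) Q'
      have h5 : finrank F (Q'.map (f i)) ≤ finrank F (Q.map (f i)) := Submodule.finrank_mono (Submodule.map_mono h1)
      have h6 := h i
      omega

end la

section dih

variable {V : Type} (G : SimpleGraph V)

/-- the homomorphism to the infinite dihedral group -/
theorem exists_dih_hom {s t : V} (hst : s ≠ t) (hn : ¬ G.Adj s t) :
    ∃ φ : W G →* DihedralGroup 0, φ ((cox G).simple s) = DihedralGroup.sr 0 ∧
      φ ((cox G).simple t) = DihedralGroup.sr 1 := by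
  classical
  obtain ⟨f, hf⟩ : ∃ f : V → DihedralGroup 0, f = fun v => if v = s then DihedralGroup.sr 0 else
    if v = t then DihedralGroup.sr 1 else 1 := ⟨_, rfl⟩
  have hsq : ∀ v, f v * f v = 1 := by
    intro v
    rw [hf]
    dsimp only
    split_ifs
    · exact DihedralGroup.sr_mul_self 0
    · exact DihedralGroup.sr_mul_self 1
    · exact one_mul 1
  have hlift : (cox G).IsLiftable f := by
    intro u v
    by_cases huv : u = v
    · subst huv
      rw [hsq, one_pow]
    by_cases hadj : G.Adj u v
    · have hM : (cox G) u v = 2 := by
        show (Matrix.of fun u v => if u = v then 1 else if G.Adj u v then 2 else 0 : Matrix V V ℕ) u v = 2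
        rw [Matrix.of_apply, if_neg huv, if_pos hadj]
      rw [hM]
      have hcase : f u = 1 ∨ f v = 1 := by
        by_contra hc
        push Not at hc
        obtain ⟨h1, h2⟩ := hc
        have h3 : u = s ∨ u = t := by
          by_contra h4
          push Not at h4
          apply h1
          rw [hf]
          dsimp only
          rw [if_neg h4.1, if_neg h4.2]
        have h5 : v = s ∨ v = t := by
          by_contra h4
          push Not at h4
          apply h2
          rw [hf]
          dsimp only
          rw [if_neg h4.1, if_neg h4.2]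
        rcases h3 with rfl | rfl <;> rcases h5 with rfl | rfl
        · exact huv rfl
        · exact hn hadj
        · exact hn hadj.symm
        · exact huv rfl
      rcases hcase with h | h
      · rw [h, one_mul, pow_two, hsq]
      · rw [h, mul_one, pow_two, hsq]
    · have hM : (cox G) u v = 0 := by
        show (Matrix.of fun u v => if u = v then 1 else if G.Adj u v then 2 else 0 : Matrix V V ℕ) u v = 0
        rw [Matrix.of_apply, if_neg huv, if_neg hadj]
      rw [hM, pow_zero]
  refine ⟨(cox G).toCoxeterSystem.lift ⟨f, hlift⟩, ?_, ?_⟩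
  · have h1 := (cox G).toCoxeterSystem.lift_apply_simple hlift s
    refine h1.trans ?_
    rw [hf]
    simp
  · have h1 := (cox G).toCoxeterSystem.lift_apply_simple hlift t
    refine h1.trans ?_
    rw [hf]
    simp [hst.symm]

/-- the product of two reflections which do not commute has infinite order -/
theorem st_pow_ne {s t : V} (hst : s ≠ t) (hn : ¬ G.Adj s t) (k : ℕ) (hk : 0 < k) :
    ((cox G).simple s * (cox G).simple t) ^ k ≠ 1 := by
  obtain ⟨φ, h1, h2⟩ := exists_dih_hom G hst hn
  intro h
  have h3 := congrArg φ h
  rw [map_pow, map_mul, map_one, h1, h2, DihedralGroup.sr_mul_sr, DihedralGroup.r_pow] at h3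
  have h4 : (DihedralGroup.r ((1 - 0 : ZMod 0) * k) : DihedralGroup 0) = DihedralGroup.r 0 := h3
  have h5 := DihedralGroup.r.inj h4
  have h6 : ((k : ℕ) : ℤ) = 0 := by
    have : ((1 - 0 : ℤ) * (k : ℤ)) = 0 := h5
    linarith
  omega

end dih

/-- invariant functions of a permutation all orbits of which have at least `N` elements -/
theorem finrank_inv {F Y : Type} [Field F] [Fintype Y] (g : Y → Y) (N : ℕ) (hg : Function.Injective g)
    (h : ∀ k, 0 < k → k < N → ∀ y, g^[k] y ≠ y) (K : Submodule F (Y → F))
    (hK : ∀ f ∈ K, ∀ y, f (g y) = f y) : N * finrank F K ≤ Fintype.card Y := by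
  classical
  let r : Setoid Y :=
    { r := fun x y => ∃ k l : ℕ, g^[k] x = g^[l] y
      iseqv :=
        { refl := fun x => ⟨0, 0, rfl⟩
          symm := by
            rintro x y ⟨k, l, h⟩
            exact ⟨l, k, h.symm⟩
          trans := by
            rintro x y z ⟨k, l, h1⟩ ⟨k', l', h2⟩
            refine ⟨k + k', l' + l, ?_⟩
            rw [add_comm k, Function.iterate_add_apply, h1, ← Function.iterate_add_apply, add_comm k' l,
              Function.iterate_add_apply, h2, ← Function.iterate_add_apply, add_comm] } }
  have : Fintype (Quotient r) := Fintype.ofFinite _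
  -- functions in `K` factor
  have hinv : ∀ f ∈ K, ∀ x y, r x y → f x = f y := by
    intro f hf x y hxy
    obtain ⟨k, l, h⟩ := hxy
    have h1 : ∀ (k : ℕ) x, f (g^[k] x) = f x := by
      intro k
      induction k with
      | zero => intro x; rfl
      | succ k ih => intro x; rw [Function.iterate_succ_apply, ih, hK f hf]
    rw [← h1 k x, h, h1]
  have h2 : finrank F K ≤ Fintype.card (Quotient r) := by
    let Φ : K →ₗ[F] (Quotient r → F) :=
      { toFun := fun f q => f.1 q.out
        map_add' := fun f f' => rfl
        map_smul' := fun c f => rfl }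
    have hΦ : Function.Injective Φ := by
      intro f f' hff
      apply Subtype.ext
      funext y
      have h3 := congrFun hff (Quotient.mk r y)
      have h4 : r (Quotient.mk r y).out y := Quotient.mk_out y
      rw [← hinv f.1 f.2 _ _ h4, ← hinv f'.1 f'.2 _ _ h4]
      exact h3
    have h5 := LinearMap.finrank_le_finrank_of_injective hΦ
    rwa [Module.finrank_fintype_fun_eq_card] at h5
  have h3 : N * Fintype.card (Quotient r) ≤ Fintype.card Y := by
    have h4 : ∀ q : Quotient r, N ≤ (Finset.univ.filter fun y => Quotient.mk r y = q).card := by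
      intro q
      have h5 : ((Finset.range N).image fun k => g^[k] q.out) ⊆ Finset.univ.filter fun y => Quotient.mk r y = q := by
        intro y hy
        rw [Finset.mem_image] at hy
        obtain ⟨k, -, rfl⟩ := hy
        rw [Finset.mem_filter]
        refine ⟨Finset.mem_univ _, ?_⟩
        rw [← q.out_eq]
        apply Quotient.sound
        exact ⟨0, k, by rw [q.out_eq]; rfl⟩
      refine le_trans ?_ (Finset.card_le_card h5)
      rw [Finset.card_image_of_injOn, Finset.card_range]
      intro k hk l hl hkl
      by_contra hne
      simp only at hkl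
      rcases lt_or_gt_of_ne hne with hlt | hlt
      · have h6 : g^[k] (g^[l - k] q.out) = g^[k] q.out := by
          rw [← Function.iterate_add_apply, show k + (l - k) = l by omega]
          exact hkl.symm
        have h7 := hg.iterate k h6
        have hl' : l < N := Finset.mem_range.1 hl
        exact h (l - k) (by omega) (by omega) _ h7
      · have h6 : g^[l] (g^[k - l] q.out) = g^[l] q.out := by
          rw [← Function.iterate_add_apply, show l + (k - l) = k by omega]
          exact hkl
        have h7 := hg.iterate l h6
        have hk' : k < N := Finset.mem_range.1 hk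
        exact h (k - l) (by omega) (by omega) _ h7
    calc N * Fintype.card (Quotient r) = ∑ _q : Quotient r, N := by
          rw [Finset.sum_const, Finset.card_univ, smul_eq_mul, mul_comm]
      _ ≤ ∑ q : Quotient r, (Finset.univ.filter fun y => Quotient.mk r y = q).card := Finset.sum_le_sum fun q _ => h4 q
      _ = Fintype.card Y := by
          rw [← Finset.card_univ]
          exact (Finset.card_eq_sum_card_fiberwise (fun y _ => Finset.mem_univ _)).symm
  exact (Nat.mul_le_mul_left N h2).trans h3

/-- common antiinvariants of two noncommuting reflections are few -/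
theorem small_dih {V : Type} (G : SimpleGraph V) {s t : V} (hst : s ≠ t) (hn : ¬ G.Adj s t) (N : ℕ) :
    ∃ E : Finset (W G), (1 : W G) ∉ E ∧ ∀ (F Y : Type) [Field F] [Fintype Y] (P : FSet G E Y)
      (K : Submodule F (Y → F)), (∀ f ∈ K, ∀ y, f (P.a s y) = - f y) → (∀ f ∈ K, ∀ y, f (P.a t y) = - f y) →
      N * finrank F K ≤ Fintype.card Y := by
  classical
  refine ⟨(Finset.range (N - 1)).image fun k => ((cox G).simple s * (cox G).simple t) ^ (k + 1), ?_, ?_⟩
  · intro h
    rw [Finset.mem_image] at h
    obtain ⟨k, -, hk⟩ := h
    exact st_pow_ne G hst hn (k + 1) (Nat.succ_pos k) hk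
  · intro F Y _ _ P K h1 h2
    have hgev : ∀ k y, (fun y => P.a t (P.a s y))^[k] y = P.ev y (((cox G).simple s * (cox G).simple t) ^ k) := by
      intro k
      induction k with
      | zero => intro y; rw [pow_zero, P.ev_one]; rfl
      | succ k ih =>
        intro y
        rw [Function.iterate_succ_apply, ih, pow_succ', P.ev_mul, P.ev_mul, P.ev_simple, P.ev_simple]
    refine finrank_inv (fun y => P.a t (P.a s y)) N ?_ ?_ K ?_
    · intro x y hxy
      have h3 := congrArg (P.a t) hxy
      simp only [P.inv] at h3
      have h4 := congrArg (P.a s) h3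
      simpa only [P.inv] using h4
    · intro k hk hkN y
      rw [hgev]
      refine P.free _ ?_ y
      rw [Finset.mem_image]
      exact ⟨k - 1, by rw [Finset.mem_range]; omega, by rw [show k - 1 + 1 = k by omega]⟩
    · intro f hf y
      show f (P.a t (P.a s y)) = f y
      rw [h2 f hf, h1 f hf, neg_neg]

end Pool.Agent.V8H3.LT
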