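import Pool.Agent.V8H3.LT.LA

/-!
# Project LT: lifts of simplices, orientations, chains
-/

set_option autoImplicit false
set_option linter.unusedSectionVars false

noncomputable section

namespace Pool.Agent.V8H3.LT

open Module Pool.Agent.W907.SG Pool.Agent.W461.SGN Pool.Agent.W397.SG Pool.Agent.N496.LT Pool.Agent.Y132.SI

variable {V F : Type} [Fintype V] [LinearOrder V] [Field F] {G : SimpleGraph V} {d : ℕ} (X : Dbl F G d)

/-- the lift of the vertex `v`; the vertices in `A` get the second lift -/
def lv (A : Finset (Fin X.n)) (v : Fin X.n) : V := X.j v (decide (v ∉ A))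

/-- the lift of a simplex -/
def L (σ A : Finset (Fin X.n)) : Finset V := σ.image (lv X A)

/-- the sign of a lift -/
def eta (σ A : Finset (Fin X.n)) : ℤ :=
  ∏ v ∈ σ, ∏ w ∈ σ, if v < w ∧ lv X A w < lv X A v then -1 else 1

theorem lv_ne (A : Finset (Fin X.n)) {v w : Fin X.n} (h : v ≠ w) : lv X A v ≠ lv X A w := X.j_ne v w h _ _

theorem lv_inj (A : Finset (Fin X.n)) : Function.Injective (lv X A) := fun _ _ h => by
  by_contra hne
  exact lv_ne X A hne h

theorem lv_erase (A : Finset (Fin X.n)) {v w : Fin X.n} (h : v ≠ w) : lv X (A.erase w) v = lv X A v := by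
  unfold lv
  simp [h]

theorem lv_insert (A : Finset (Fin X.n)) {v w : Fin X.n} (h : v ≠ w) : lv X (insert w A) v = lv X A v := by
  unfold lv
  simp [h]

theorem L_insert_of (σ A : Finset (Fin X.n)) (w : Fin X.n) (h : w ∉ σ) : L X σ (insert w A) = L X σ A := by
  unfold L
  apply Finset.image_congr
  intro v hv
  exact lv_insert X A (fun e => h (e ▸ hv))

theorem eta_insert_of (σ A : Finset (Fin X.n)) (w : Fin X.n) (h : w ∉ σ) : eta X σ (insert w A) = eta X σ A := by
  unfold eta
  refine Finset.prod_congr rfl fun v hv => Finset.prod_congr rfl fun u hu => ?_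
  rw [lv_insert X A (v := v) (w := w) (by rintro rfl; exact h hv), lv_insert X A (v := u) (w := w) (by rintro rfl; exact h hu)]

theorem L_erase (σ A : Finset (Fin X.n)) (w : Fin X.n) : L X (σ.erase w) A = (L X σ A).erase (lv X A w) := by
  unfold L
  rw [Finset.image_erase (lv_inj X A)]

theorem L_insert (σ A : Finset (Fin X.n)) (w : Fin X.n) : L X (insert w σ) A = insert (lv X A w) (L X σ A) := by
  unfold L
  rw [Finset.image_insert]

theorem card_L (σ A : Finset (Fin X.n)) : (L X σ A).card = σ.card := by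
  unfold L
  exact Finset.card_image_of_injective _ (lv_inj X A)

theorem sg_prod {I : Type} [LinearOrder I] (v : I) (T : Finset I) :
    sg v T = ∏ u ∈ T, if u < v then (-1 : ℤ) else 1 := by
  unfold sg
  rw [Finset.prod_ite, Finset.prod_const, Finset.prod_const_one, mul_one]

theorem sg_L (A τ : Finset (Fin X.n)) (v : Fin X.n) :
    sg (lv X A v) (L X τ A) = ∏ w ∈ τ, if lv X A w < lv X A v then (-1 : ℤ) else 1 := by
  rw [sg_prod]
  unfold L
  rw [Finset.prod_image (fun a _ b _ h => lv_inj X A h)]

/-- the sign rule -/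
theorem sign_rule (A τ : Finset (Fin X.n)) (v : Fin X.n) (hv : v ∉ τ) :
    sg (lv X A v) (L X τ A) * eta X (insert v τ) A = sg v τ * eta X τ A := by
  have h1 : eta X (insert v τ) A = (∏ w ∈ τ, if v < w ∧ lv X A w < lv X A v then (-1 : ℤ) else 1) *
      ((∏ u ∈ τ, if u < v ∧ lv X A v < lv X A u then (-1 : ℤ) else 1) * eta X τ A) := by
    unfold eta
    rw [Finset.prod_insert hv, Finset.prod_insert hv]
    rw [if_neg (fun h : v < v ∧ _ => lt_irrefl _ h.1), one_mul]
    congr 1
    rw [← Finset.prod_mul_distrib]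
    refine Finset.prod_congr rfl fun u hu => ?_
    rw [Finset.prod_insert hv]
  rw [h1, sg_L, sg_prod v τ, ← mul_assoc, ← mul_assoc]
  congr 1
  rw [← Finset.prod_mul_distrib, ← Finset.prod_mul_distrib]
  refine Finset.prod_congr rfl fun w hw => ?_
  have hne : w ≠ v := fun e => hv (e ▸ hw)
  have hne' := lv_ne X A hne
  rcases lt_or_gt_of_ne hne with h | h <;> rcases lt_or_gt_of_ne hne' with h' | h'
  · simp [h, h', h.not_gt, h'.not_gt]
  · simp [h, h', h.not_gt, h'.not_gt]
  · simp [h, h', h.not_gt, h'.not_gt]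
  · simp [h, h', h.not_gt, h'.not_gt]

section chains

variable {Y : Type}

/-- the chain given by a family of functions -/
def cc (x : Finset (Fin X.n) → Finset (Fin X.n) → (Y → F)) (T : Finset V) : Y → F :=
  ∑ σ : Finset (Fin X.n), ∑ A ∈ (σ \ X.U).powerset, if L X σ A = T then eta X σ A • x σ A else 0

/-- the boundary of the family -/
def dd (x : Finset (Fin X.n) → Finset (Fin X.n) → (Y → F)) (τ A : Finset (Fin X.n)) : Y → F :=
  ∑ v ∈ τᶜ, sg v τ • (x (insert v τ) A + if v ∈ X.U then 0 else x (insert v τ) (insert v A))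

theorem sum_faces {M : Type} [AddCommGroup M] (B T : Finset V) (m : M) :
    (∑ u ∈ Tᶜ, sg u T • (if B = insert u T then m else 0)) =
      ∑ u ∈ B, if B.erase u = T then sg u T • m else 0 := by
  have h1 : (∑ u ∈ Tᶜ, sg u T • (if B = insert u T then m else 0)) =
      ∑ u : V, if (u ∈ B ∧ B.erase u = T) then sg u T • m else 0 := by
    rw [← Finset.sum_subset (Finset.subset_univ Tᶜ)]
    · refine Finset.sum_congr rfl fun u hu => ?_
      have hu' : u ∉ T := by simpa using hu
      by_cases h : B = insert u T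
      · rw [if_pos h, if_pos]
        rw [h]
        exact ⟨Finset.mem_insert_self _ _, Finset.erase_insert hu'⟩
      · rw [if_neg h, if_neg, smul_zero]
        rintro ⟨h2, h3⟩
        apply h
        rw [← h3, Finset.insert_erase h2]
    · intro u _ hu
      have hu' : u ∈ T := by simpa using hu
      rw [if_neg]
      rintro ⟨h2, h3⟩
      rw [← h3] at hu'
      exact Finset.notMem_erase _ _ hu'
  rw [h1]
  symm
  rw [← Finset.sum_subset (Finset.subset_univ B)]
  · refine Finset.sum_congr rfl fun u hu => ?_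
    by_cases h : B.erase u = T
    · rw [if_pos h, if_pos ⟨hu, h⟩]
    · rw [if_neg h, if_neg fun h2 => h h2.2]
  · intro u _ hu
    rw [if_neg fun h2 => hu h2.1]

theorem face_sum {I M : Type} [Fintype I] [DecidableEq I] [AddCommMonoid M] (f : Finset I → I → M) :
    (∑ σ : Finset I, ∑ w ∈ σ, f (σ.erase w) w) = ∑ τ : Finset I, ∑ w ∈ τᶜ, f τ w := by
  rw [Finset.sum_sigma', Finset.sum_sigma']
  refine Finset.sum_bij' (fun (p : Σ _ : Finset I, I) _ => (⟨p.1.erase p.2, p.2⟩ : Σ _ : Finset I, I))
    (fun (p : Σ _ : Finset I, I) _ => (⟨insert p.2 p.1, p.2⟩ : Σ _ : Finset I, I)) ?_ ?_ ?_ ?_ ?_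
  · rintro ⟨σ, w⟩ h
    simp
  · rintro ⟨σ, w⟩ h
    simp
  · rintro ⟨σ, w⟩ h
    simp only [Finset.mem_sigma, Finset.mem_univ, true_and] at h
    simp only [Finset.insert_erase h]
  · rintro ⟨σ, w⟩ h
    simp only [Finset.mem_sigma, Finset.mem_univ, true_and, Finset.mem_compl] at h
    simp only [Finset.erase_insert h]
  · rintro ⟨σ, w⟩ h
    rfl

/-- the boundary of the chain of a family -/
theorem bd_cc (x : Finset (Fin X.n) → Finset (Fin X.n) → (Y → F)) (T : Finset V) :
    bd F (cc X x) T = ∑ τ : Finset (Fin X.n), ∑ A ∈ (τ \ X.U).powerset,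
      if L X τ A = T then eta X τ A • dd X x τ A else 0 := by
  rw [bd_apply]
  unfold cc
  simp only [Finset.smul_sum]
  rw [Finset.sum_comm]
  have h1 : ∀ σ : Finset (Fin X.n), (∑ u ∈ Tᶜ, ∑ A ∈ (σ \ X.U).powerset,
      sg u T • (if L X σ A = insert u T then eta X σ A • x σ A else 0)) =
      ∑ w ∈ σ, ∑ A ∈ (σ \ X.U).powerset, if L X (σ.erase w) A = T then
        (sg w (σ.erase w) * eta X (σ.erase w) A) • x σ A else 0 := by
    intro σ
    rw [Finset.sum_comm]
    rw [Finset.sum_comm (s := σ)]
    refine Finset.sum_congr rfl fun A _ => ?_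
    rw [sum_faces]
    unfold L
    rw [Finset.sum_image (fun a _ b _ h => lv_inj X A h)]
    refine Finset.sum_congr rfl fun w hw => ?_
    rw [← Finset.image_erase (lv_inj X A)]
    by_cases h : (σ.erase w).image (lv X A) = T
    · rw [if_pos h, if_pos h, smul_smul, ← sign_rule X A (σ.erase w) w (Finset.notMem_erase _ _),
        Finset.insert_erase hw, ← h]
      rfl
    · rw [if_neg h, if_neg h]
  rw [Finset.sum_congr rfl fun σ _ => h1 σ]
  have h2 : ∀ τ : Finset (Fin X.n), (∑ A ∈ (τ \ X.U).powerset, if L X τ A = T then eta X τ A • dd X x τ A else 0) =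
      ∑ w ∈ τᶜ, ∑ A ∈ (insert w τ \ X.U).powerset, if L X τ A = T then
        (sg w τ * eta X τ A) • x (insert w τ) A else 0 := by
    intro τ
    have h3 : ∀ A ∈ (τ \ X.U).powerset, (if L X τ A = T then eta X τ A • dd X x τ A else 0) =
        ∑ w ∈ τᶜ, if L X τ A = T then (sg w τ * eta X τ A) • (x (insert w τ) A + if w ∈ X.U then 0 else
          x (insert w τ) (insert w A)) else 0 := by
      intro A _
      by_cases h : L X τ A = T
      · simp only [if_pos h]
        unfold dd
        rw [Finset.smul_sum]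
        refine Finset.sum_congr rfl fun w _ => ?_
        rw [smul_smul, mul_comm]
      · simp only [if_neg h, Finset.sum_const_zero]
    rw [Finset.sum_congr rfl h3, Finset.sum_comm]
    refine Finset.sum_congr rfl fun w hw => ?_
    have hw' : w ∉ τ := by simpa using hw
    by_cases hU : w ∈ X.U
    · rw [Finset.insert_sdiff_of_mem _ hU]
      refine Finset.sum_congr rfl fun A _ => ?_
      rw [if_pos hU, add_zero]
    · rw [Finset.insert_sdiff_of_notMem _ hU, Finset.sum_powerset_insert (fun h => hw' (Finset.mem_sdiff.1 h).1),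
        ← Finset.sum_add_distrib]
      refine Finset.sum_congr rfl fun A _ => ?_
      rw [if_neg hU, L_insert_of X τ A w hw', eta_insert_of X τ A w hw']
      by_cases h : L X τ A = T
      · rw [if_pos h, if_pos h, if_pos h, smul_add]
      · rw [if_neg h, if_neg h, if_neg h, add_zero]
  rw [Finset.sum_congr rfl fun τ _ => h2 τ]
  rw [← face_sum (fun τ w => ∑ A ∈ (insert w τ \ X.U).powerset, if L X τ A = T then
        (sg w τ * eta X τ A) • x (insert w τ) A else 0)]
  refine Finset.sum_congr rfl fun σ _ => Finset.sum_congr rfl fun w hw => ?_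
  rw [Finset.insert_erase hw]

end chains

end Pool.Agent.V8H3.LT
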