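import Pool.Agent.V8H3.LT.P1c

/-!
# Project LT: doubled cycles with lifts which may be shared
-/

set_option autoImplicit false
set_option linter.unusedSectionVars false

noncomputable section

namespace Pool.Agent.V8H3.LT.NI

open Module Pool.Agent.W907.SG Pool.Agent.W461.SGN Pool.Agent.W397.SG Pool.Agent.N496.LT Pool.Agent.Y132.SI
open Pool.Agent.V8H3.LT (sum_faces face_sum finrank_map_add codim_inf finrank_pi_le finrank_pi_ge fmono small_dih sg_prod)

/-- A doubled `d`-cycle with coefficients in `F` in the flag complex of the graph `G`, in the weak sense: `z` is a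
simplicial `d`-cycle on the vertex set `Fin n`; every vertex `v` has two lifts `j v false`, `j v true` in `G`, which
are different and not adjacent, except that the vertices in `U` have only one lift; lifts of different vertices may
be equal; all the lifts of the simplices with nonzero coefficient are simplices (cliques) of `G`. One simplex `s` with
nonzero coefficient has a lift (the vertices in `A` get the second lift) which is not a lift of another simplex with
nonzero coefficient and is not another lift of `s`; and this lift together with the lifts of `U` is a clique. -/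
structure DblW (F : Type) [Field F] {V : Type} [DecidableEq V] (G : SimpleGraph V) (d : ℕ) where
  n : ℕ
  z : Finset (Fin n) → F
  j : Fin n → Bool → V
  U : Finset (Fin n)
  s : Finset (Fin n)
  A : Finset (Fin n)
  z_card : ∀ σ, z σ ≠ 0 → σ.card = d + 1
  z_cyc : ∀ τ : Finset (Fin n), ∑ v ∈ τᶜ, (sg v τ) • z (insert v τ) = 0
  j_U : ∀ v ∈ U, j v true = j v false
  j_adj : ∀ v, v ∉ U → j v true ≠ j v false ∧ ¬ G.Adj (j v true) (j v false)
  clique : ∀ σ, z σ ≠ 0 → ∀ v ∈ σ, ∀ w ∈ σ, v ≠ w → ∀ a b, G.Adj (j v a) (j w b)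
  z_s : z s ≠ 0
  A_s : A ⊆ s \ U
  uniq : ∀ σ B : Finset (Fin n), z σ ≠ 0 → B ⊆ σ \ U →
    (σ.image fun v => j v (decide (v ∉ B))) = (s.image fun v => j v (decide (v ∉ A))) → σ = s ∧ B = A
  cliqueU : ∀ v ∈ U ∪ s, ∀ w ∈ U ∪ s, v ≠ w → G.Adj (j v (decide (v ∉ A))) (j w (decide (w ∉ A)))

variable {V F : Type} [Fintype V] [LinearOrder V] [Field F] {G : SimpleGraph V} {d : ℕ} (X : DblW F G d)

/-- the lift of the vertex `v`; the vertices in `A` get the second lift -/
def lv (A : Finset (Fin X.n)) (v : Fin X.n) : V := X.j v (decide (v ∉ A))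

/-- the lift of a simplex -/
def L (σ A : Finset (Fin X.n)) : Finset V := σ.image (lv X A)

/-- the sign of a lift -/
def eta (σ A : Finset (Fin X.n)) : ℤ :=
  ∏ v ∈ σ, ∏ w ∈ σ, if v < w ∧ lv X A w < lv X A v then -1 else 1

theorem lv_ne {σ : Finset (Fin X.n)} (hσ : X.z σ ≠ 0) (A : Finset (Fin X.n)) {v w : Fin X.n} (hv : v ∈ σ) (hw : w ∈ σ)
    (h : v ≠ w) : lv X A v ≠ lv X A w := (X.clique σ hσ v hv w hw h _ _).ne

theorem lv_inj {σ : Finset (Fin X.n)} (hσ : X.z σ ≠ 0) (A : Finset (Fin X.n)) :
    Set.InjOn (lv X A) (σ : Set (Fin X.n)) := fun v hv w hw h => by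
  by_contra hne
  exact lv_ne X hσ A hv hw hne h

theorem image_erase' {α β : Type} [DecidableEq α] [DecidableEq β] (f : α → β) (σ : Finset α) (w : α) (hw : w ∈ σ)
    (hf : Set.InjOn f (σ : Set α)) : (σ.erase w).image f = (σ.image f).erase (f w) := by
  ext b
  rw [Finset.mem_image, Finset.mem_erase, Finset.mem_image]
  constructor
  · rintro ⟨a, ha, rfl⟩
    rw [Finset.mem_erase] at ha
    exact ⟨fun h => ha.1 (hf ha.2 hw h), a, ha.2, rfl⟩
  · rintro ⟨h1, a, ha, rfl⟩
    exact ⟨a, Finset.mem_erase.2 ⟨fun h => h1 (by rw [h]), ha⟩, rfl⟩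

theorem lv_erase (A : Finset (Fin X.n)) {v w : Fin X.n} (h : v ≠ w) : lv X (A.erase w) v = lv X A v := by
  unfold lv
  simp [h]

theorem lv_insert (A : Finset (Fin X.n)) {v w : Fin X.n} (h : v ≠ w) : lv X (insert w A) v = lv X A v := by
  unfold lv
  simp [h]

theorem L_insert_of (σ A : Finset (Fin X.n)) (w : Fin X.n) (h : w ∉ σ) : L X σ (insert w A) = L X σ A := by
  unfold L
  apply Finset.image_congr
  intro v hv
  exact lv_insert X A (fun e => h (e ▸ hv))

theorem eta_insert_of (σ A : Finset (Fin X.n)) (w : Fin X.n) (h : w ∉ σ) : eta X σ (insert w A) = eta X σ A := by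
  unfold eta
  refine Finset.prod_congr rfl fun v hv => Finset.prod_congr rfl fun u hu => ?_
  rw [lv_insert X A (v := v) (w := w) (by rintro rfl; exact h hv), lv_insert X A (v := u) (w := w) (by rintro rfl; exact h hu)]

theorem L_insert (σ A : Finset (Fin X.n)) (w : Fin X.n) : L X (insert w σ) A = insert (lv X A w) (L X σ A) := by
  unfold L
  rw [Finset.image_insert]

theorem card_L {σ : Finset (Fin X.n)} (hσ : X.z σ ≠ 0) (A : Finset (Fin X.n)) : (L X σ A).card = σ.card := by
  unfold L
  exact Finset.card_image_of_injOn (lv_inj X hσ A)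

theorem sg_L {σ : Finset (Fin X.n)} (hσ : X.z σ ≠ 0) (A τ : Finset (Fin X.n)) (hτ : τ ⊆ σ) (v : Fin X.n) :
    sg (lv X A v) (L X τ A) = ∏ w ∈ τ, if lv X A w < lv X A v then (-1 : ℤ) else 1 := by
  rw [sg_prod]
  unfold L
  rw [Finset.prod_image (fun a ha b hb h => lv_inj X hσ A (hτ ha) (hτ hb) h)]

/-- the sign rule -/
theorem sign_rule (A τ : Finset (Fin X.n)) (v : Fin X.n) (hv : v ∉ τ) (hσ : X.z (insert v τ) ≠ 0) :
    sg (lv X A v) (L X τ A) * eta X (insert v τ) A = sg v τ * eta X τ A := by
  have h1 : eta X (insert v τ) A = (∏ w ∈ τ, if v < w ∧ lv X A w < lv X A v then (-1 : ℤ) else 1) *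
      ((∏ u ∈ τ, if u < v ∧ lv X A v < lv X A u then (-1 : ℤ) else 1) * eta X τ A) := by
    unfold eta
    rw [Finset.prod_insert hv, Finset.prod_insert hv]
    rw [if_neg (fun h : v < v ∧ _ => lt_irrefl _ h.1), one_mul]
    congr 1
    rw [← Finset.prod_mul_distrib]
    refine Finset.prod_congr rfl fun u hu => ?_
    rw [Finset.prod_insert hv]
  rw [h1, sg_L X hσ A τ (Finset.subset_insert _ _), sg_prod v τ, ← mul_assoc, ← mul_assoc]
  congr 1
  rw [← Finset.prod_mul_distrib, ← Finset.prod_mul_distrib]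
  refine Finset.prod_congr rfl fun w hw => ?_
  have hne : w ≠ v := fun e => hv (e ▸ hw)
  have hne' := lv_ne X hσ A (Finset.mem_insert_of_mem hw) (Finset.mem_insert_self _ _) hne
  rcases lt_or_gt_of_ne hne with h | h <;> rcases lt_or_gt_of_ne hne' with h' | h'
  · simp [h, h', h.not_gt, h'.not_gt]
  · simp [h, h', h.not_gt, h'.not_gt]
  · simp [h, h', h.not_gt, h'.not_gt]
  · simp [h, h', h.not_gt, h'.not_gt]

section chains

variable {Y : Type}

/-- the chain given by a family of functions -/
def cc (x : Finset (Fin X.n) → Finset (Fin X.n) → (Y → F)) (T : Finset V) : Y → F :=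
  ∑ σ : Finset (Fin X.n), ∑ A ∈ (σ \ X.U).powerset, if L X σ A = T then eta X σ A • x σ A else 0

/-- the boundary of the family -/
def dd (x : Finset (Fin X.n) → Finset (Fin X.n) → (Y → F)) (τ A : Finset (Fin X.n)) : Y → F :=
  ∑ v ∈ τᶜ, sg v τ • (x (insert v τ) A + if v ∈ X.U then 0 else x (insert v τ) (insert v A))

/-- the boundary of the chain of a family -/
theorem bd_cc (x : Finset (Fin X.n) → Finset (Fin X.n) → (Y → F)) (hx : ∀ σ, X.z σ = 0 → x σ = 0) (T : Finset V) :
    bd F (cc X x) T = ∑ τ : Finset (Fin X.n), ∑ A ∈ (τ \ X.U).powerset,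
      if L X τ A = T then eta X τ A • dd X x τ A else 0 := by
  rw [bd_apply]
  unfold cc
  simp only [Finset.smul_sum]
  rw [Finset.sum_comm]
  have h1 : ∀ σ : Finset (Fin X.n), (∑ u ∈ Tᶜ, ∑ A ∈ (σ \ X.U).powerset,
      sg u T • (if L X σ A = insert u T then eta X σ A • x σ A else 0)) =
      ∑ w ∈ σ, ∑ A ∈ (σ \ X.U).powerset, if L X (σ.erase w) A = T then
        (sg w (σ.erase w) * eta X (σ.erase w) A) • x σ A else 0 := by
    intro σ
    by_cases hσ : X.z σ = 0
    · rw [hx σ hσ]
      simp
    rw [Finset.sum_comm]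
    rw [Finset.sum_comm (s := σ)]
    refine Finset.sum_congr rfl fun A _ => ?_
    rw [sum_faces]
    unfold L
    rw [Finset.sum_image (fun a ha b hb h => lv_inj X hσ A ha hb h)]
    refine Finset.sum_congr rfl fun w hw => ?_
    rw [← image_erase' (lv X A) σ w hw (lv_inj X hσ A)]
    by_cases h : (σ.erase w).image (lv X A) = T
    · rw [if_pos h, if_pos h, smul_smul, ← sign_rule X A (σ.erase w) w (Finset.notMem_erase _ _) (by
          rw [Finset.insert_erase hw]
          exact hσ), Finset.insert_erase hw, ← h]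
      rfl
    · rw [if_neg h, if_neg h]
  rw [Finset.sum_congr rfl fun σ _ => h1 σ]
  have h2 : ∀ τ : Finset (Fin X.n), (∑ A ∈ (τ \ X.U).powerset, if L X τ A = T then eta X τ A • dd X x τ A else 0) =
      ∑ w ∈ τᶜ, ∑ A ∈ (insert w τ \ X.U).powerset, if L X τ A = T then
        (sg w τ * eta X τ A) • x (insert w τ) A else 0 := by
    intro τ
    have h3 : ∀ A ∈ (τ \ X.U).powerset, (if L X τ A = T then eta X τ A • dd X x τ A else 0) =
        ∑ w ∈ τᶜ, if L X τ A = T then (sg w τ * eta X τ A) • (x (insert w τ) A + if w ∈ X.U then 0 else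
          x (insert w τ) (insert w A)) else 0 := by
      intro A _
      by_cases h : L X τ A = T
      · simp only [if_pos h]
        unfold dd
        rw [Finset.smul_sum]
        refine Finset.sum_congr rfl fun w _ => ?_
        rw [smul_smul, mul_comm]
      · simp only [if_neg h, Finset.sum_const_zero]
    rw [Finset.sum_congr rfl h3, Finset.sum_comm]
    refine Finset.sum_congr rfl fun w hw => ?_
    have hw' : w ∉ τ := by simpa using hw
    by_cases hU : w ∈ X.U
    · rw [Finset.insert_sdiff_of_mem _ hU]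
      refine Finset.sum_congr rfl fun A _ => ?_
      rw [if_pos hU, add_zero]
    · rw [Finset.insert_sdiff_of_notMem _ hU, Finset.sum_powerset_insert (fun h => hw' (Finset.mem_sdiff.1 h).1),
        ← Finset.sum_add_distrib]
      refine Finset.sum_congr rfl fun A _ => ?_
      rw [if_neg hU, L_insert_of X τ A w hw', eta_insert_of X τ A w hw']
      by_cases h : L X τ A = T
      · rw [if_pos h, if_pos h, if_pos h, smul_add]
      · rw [if_neg h, if_neg h, if_neg h, add_zero]
  rw [Finset.sum_congr rfl fun τ _ => h2 τ]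
  rw [← face_sum (fun τ w => ∑ A ∈ (insert w τ \ X.U).powerset, if L X τ A = T then
        (sg w τ * eta X τ A) • x (insert w τ) A else 0)]
  refine Finset.sum_congr rfl fun σ _ => Finset.sum_congr rfl fun w hw => ?_
  rw [Finset.insert_erase hw]

end chains

end Pool.Agent.V8H3.LT.NI
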