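import Pool.Agent.V8H3.LT.NI

/-!
# Project LT: the growth of the number of top dimensional cycles for doubled cycles with shared lifts
-/

set_option autoImplicit false
set_option linter.unusedSectionVars false

noncomputable section

namespace Pool.Agent.V8H3.LT.NI

open Module Pool.Agent.W907.SG Pool.Agent.W461.SGN Pool.Agent.W397.SG Pool.Agent.N496.LT Pool.Agent.Y132.SI
open Pool.Agent.V8H3.LT (sum_faces face_sum finrank_map_add codim_inf finrank_pi_le finrank_pi_ge fmono small_dih)

variable {V F : Type} [Fintype V] [LinearOrder V] [Field F] {G : SimpleGraph V} {d : ℕ} (X : DblW F G d)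
  {Y : Type} [Fintype Y] (a : V → Y → Y)

theorem mem_ET {T : Finset V} {f : Y → F} : f ∈ ET F a T ↔ ∀ t ∈ T, ∀ x, f (a t x) = - f x := Iff.rfl

/-- families of antiinvariant functions with sum zero -/
def KD (D : Finset (Fin X.n)) : Submodule F (Finset (Fin X.n) → (Y → F)) where
  carrier := {y | (∀ A, ¬ A ⊆ D → y A = 0) ∧ (∀ A, y A ∈ ET F a (L X D A)) ∧ ∑ A ∈ D.powerset, y A = 0}
  add_mem' := by
    rintro y y' ⟨h1, h2, h3⟩ ⟨h1', h2', h3'⟩
    refine ⟨fun A hA => ?_, fun A => ?_, ?_⟩
    · rw [Pi.add_apply, h1 A hA, h1' A hA, add_zero]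
    · exact add_mem (h2 A) (h2' A)
    · simp only [Pi.add_apply]
      rw [Finset.sum_add_distrib, h3, h3', add_zero]
  zero_mem' := ⟨fun _ _ => rfl, fun _ => zero_mem _, by simp⟩
  smul_mem' := by
    rintro r y ⟨h1, h2, h3⟩
    refine ⟨fun A hA => ?_, fun A => ?_, ?_⟩
    · rw [Pi.smul_apply, h1 A hA, smul_zero]
    · exact Submodule.smul_mem _ r (h2 A)
    · simp only [Pi.smul_apply]
      rw [← Finset.smul_sum, h3, smul_zero]

theorem mem_KD {D : Finset (Fin X.n)} {y : Finset (Fin X.n) → (Y → F)} : y ∈ KD X a D ↔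
    (∀ A, ¬ A ⊆ D → y A = 0) ∧ (∀ A, y A ∈ ET F a (L X D A)) ∧ ∑ A ∈ D.powerset, y A = 0 := Iff.rfl

theorem L_insert_set (D A : Finset (Fin X.n)) (v : Fin X.n) : L X (insert v D) A = insert (lv X A v) (L X D A) :=
  L_insert X D A v

theorem KD_small (N : ℕ) (D : Finset (Fin X.n))
    (hK : ∀ v ∈ D, ∀ K : Submodule F (Y → F), (∀ f ∈ K, ∀ t, f (a (X.j v true) t) = - f t) →
      (∀ f ∈ K, ∀ t, f (a (X.j v false) t) = - f t) → N * finrank F K ≤ Fintype.card Y) :
    N * finrank F (KD X a D) ≤ 2 * 2 ^ D.card * Fintype.card Y := by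
  classical
  induction D using Finset.induction_on with
  | empty =>
    have h : KD X a ∅ = ⊥ := by
      rw [eq_bot_iff]
      rintro y ⟨h1, h2, h3⟩
      rw [Submodule.mem_bot]
      funext A
      by_cases hA : A ⊆ ∅
      · have e := Finset.subset_empty.1 hA
        subst e
        rw [Finset.powerset_empty, Finset.sum_singleton] at h3
        exact h3
      · exact h1 A hA
    rw [h, finrank_bot]
    simp
  | insert v D hv ih =>
    have ih' := ih fun w hw => hK w (Finset.mem_insert_of_mem hw)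
    let g : (Finset (Fin X.n) → (Y → F)) →ₗ[F] (Finset (Fin X.n) → (Y → F)) :=
      { toFun := fun y A => if A ⊆ D then y A + y (insert v A) else 0
        map_add' := by
          intro y y'
          funext A
          simp only [Pi.add_apply]
          split_ifs
          · abel
          · rw [add_zero]
        map_smul' := by
          intro r y
          funext A
          simp only [Pi.smul_apply, RingHom.id_apply]
          split_ifs
          · rw [smul_add]
          · rw [smul_zero] }
    have hg : ∀ y A, g y A = if A ⊆ D then y A + y (insert v A) else 0 := fun y A => rfl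
    have h1 := finrank_map_add g (KD X a (insert v D))
    have h2 : (KD X a (insert v D)).map g ≤ KD X a D := by
      rintro _ ⟨y, hy, rfl⟩
      obtain ⟨hy1, hy2, hy3⟩ := hy
      refine ⟨fun A hA => ?_, fun A => ?_, ?_⟩
      · rw [hg, if_neg hA]
      · rw [hg]
        split_ifs with hA
        · refine add_mem ?_ ?_
          · intro t ht x
            refine hy2 A t ?_ x
            rw [L_insert]
            exact Finset.mem_insert_of_mem ht
          · intro t ht x
            refine hy2 (insert v A) t ?_ x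
            rw [L_insert, L_insert_of X D A v hv]
            exact Finset.mem_insert_of_mem ht
        · exact zero_mem _
      · rw [Finset.sum_powerset_insert hv, ← Finset.sum_add_distrib] at hy3
        rw [← hy3]
        refine Finset.sum_congr rfl fun A hA => ?_
        rw [hg, if_pos (Finset.mem_powerset.1 hA)]
    have h3 := Submodule.finrank_mono h2
    -- the common antiinvariants
    obtain ⟨K, hKm⟩ : ∃ K : Submodule F (Y → F), ∀ f, f ∈ K ↔ ((∀ t, f (a (X.j v true) t) = - f t) ∧
        ∀ t, f (a (X.j v false) t) = - f t) :=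
      ⟨{ carrier := {f | (∀ t, f (a (X.j v true) t) = - f t) ∧ ∀ t, f (a (X.j v false) t) = - f t}
         add_mem' := by
          rintro f f' ⟨e1, e2⟩ ⟨e3, e4⟩
          refine ⟨fun t => ?_, fun t => ?_⟩
          · rw [Pi.add_apply, Pi.add_apply, e1, e3]; ring
          · rw [Pi.add_apply, Pi.add_apply, e2, e4]; ring
         zero_mem' := ⟨fun _ => by simp, fun _ => by simp⟩
         smul_mem' := by
          rintro r f ⟨e1, e2⟩
          refine ⟨fun t => ?_, fun t => ?_⟩
          · rw [Pi.smul_apply, Pi.smul_apply, e1, smul_neg]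
          · rw [Pi.smul_apply, Pi.smul_apply, e2, smul_neg] }, fun f => Iff.rfl⟩
    have h4 := hK v (Finset.mem_insert_self _ _) K (fun f hf => ((hKm f).1 hf).1) (fun f hf => ((hKm f).1 hf).2)
    obtain ⟨p, hp⟩ : ∃ p : Finset (Fin X.n) → Submodule F (Y → F), p = fun A => if A ⊆ insert v D then K else ⊥ :=
      ⟨_, rfl⟩
    have h5 : finrank F (KD X a (insert v D) ⊓ LinearMap.ker g : Submodule F (Finset (Fin X.n) → (Y → F))) ≤
        ∑ A, finrank F (p A) := by
      refine finrank_pi_le _ p ?_
      rintro y ⟨⟨hy1, hy2, hy3⟩, hy4⟩ A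
      rw [hp]
      simp only
      split_ifs with hA
      · have hker : ∀ B, B ⊆ D → y B = - y (insert v B) := by
          intro B hB
          have h6 := congrFun (LinearMap.mem_ker.1 hy4) B
          rw [hg, if_pos hB] at h6
          exact eq_neg_of_add_eq_zero_left h6
        have ht : ∀ B, v ∉ B → B ⊆ D → ∀ t, y B (a (X.j v true) t) = - y B t := by
          intro B hvB hB t
          refine hy2 B _ ?_ t
          rw [L_insert]
          refine Finset.mem_insert.2 (Or.inl ?_)
          unfold lv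
          simp [hvB]
        have hf : ∀ B, v ∈ B → ∀ t, y B (a (X.j v false) t) = - y B t := by
          intro B hvB t
          refine hy2 B _ ?_ t
          rw [L_insert]
          refine Finset.mem_insert.2 (Or.inl ?_)
          unfold lv
          simp [hvB]
        rw [hKm]
        by_cases hvA : v ∈ A
        · have hAD : A.erase v ⊆ D := by
            intro w hw
            rcases Finset.mem_insert.1 (hA (Finset.mem_of_mem_erase hw)) with h | h
            · exact absurd h (Finset.ne_of_mem_erase hw)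
            · exact h
          have h6 : y A = - y (A.erase v) := by
            have h7 := hker _ hAD
            rw [Finset.insert_erase hvA] at h7
            rw [h7, neg_neg]
          refine ⟨fun t => ?_, hf A hvA⟩
          rw [h6, Pi.neg_apply, Pi.neg_apply, ht _ (Finset.notMem_erase _ _) hAD]
        · have hAD : A ⊆ D := by
            intro w hw
            rcases Finset.mem_insert.1 (hA hw) with h | h
            · exact absurd (h ▸ hw) hvA
            · exact h
          refine ⟨ht A hvA hAD, fun t => ?_⟩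
          rw [hker A hAD, Pi.neg_apply, Pi.neg_apply, hf _ (Finset.mem_insert_self _ _)]
      · rw [Submodule.mem_bot]
        exact hy1 A hA
    have h6 : ∑ A, finrank F (p A) = 2 ^ (insert v D).card * finrank F K := by
      rw [← Finset.card_powerset, ← smul_eq_mul, ← Finset.sum_const,
        ← Finset.sum_subset (Finset.subset_univ (insert v D).powerset)]
      · refine Finset.sum_congr rfl fun A hA => ?_
        have e : p A = K := by
          rw [hp]
          exact if_pos (Finset.mem_powerset.1 hA)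
        rw [e]
      · intro A _ hA
        have e : p A = ⊥ := by
          rw [hp]
          exact if_neg (fun h => hA (Finset.mem_powerset.2 h))
        rw [e, finrank_bot]
    rw [Finset.card_insert_of_notMem hv] at h6 ⊢
    have h7 : N * finrank F (KD X a (insert v D)) ≤ N * finrank F (KD X a D) + 2 ^ (D.card + 1) * (N * finrank F K) := by
      rw [h1]
      calc N * (finrank F ((KD X a (insert v D)).map g) + finrank F (KD X a (insert v D) ⊓ LinearMap.ker g :
            Submodule F (Finset (Fin X.n) → (Y → F))))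
          ≤ N * (finrank F (KD X a D) + 2 ^ (D.card + 1) * finrank F K) :=
            Nat.mul_le_mul_left N (add_le_add h3 (h5.trans h6.le))
        _ = _ := by ring
    calc N * finrank F (KD X a (insert v D))
        ≤ N * finrank F (KD X a D) + 2 ^ (D.card + 1) * (N * finrank F K) := h7
      _ ≤ 2 * 2 ^ D.card * Fintype.card Y + 2 ^ (D.card + 1) * Fintype.card Y :=
          add_le_add ih' (Nat.mul_le_mul_left _ h4)
      _ = _ := by ring

/-- the families over a simplex -/
def ES (σ : Finset (Fin X.n)) : Submodule F (Finset (Fin X.n) → (Y → F)) where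
  carrier := {y | (∀ A, ¬ A ⊆ σ \ X.U → y A = 0) ∧ ∀ A, y A ∈ ET F a (L X σ A)}
  add_mem' := by
    rintro y y' ⟨h1, h2⟩ ⟨h1', h2'⟩
    refine ⟨fun A hA => ?_, fun A => ?_⟩
    · rw [Pi.add_apply, h1 A hA, h1' A hA, add_zero]
    · exact add_mem (h2 A) (h2' A)
  zero_mem' := ⟨fun _ _ => rfl, fun _ => zero_mem _⟩
  smul_mem' := by
    rintro r y ⟨h1, h2⟩
    refine ⟨fun A hA => ?_, fun A => ?_⟩
    · rw [Pi.smul_apply, h1 A hA, smul_zero]
    · exact Submodule.smul_mem _ r (h2 A)

/-- the sum map -/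
def sm (D : Finset (Fin X.n)) : (Finset (Fin X.n) → (Y → F)) →ₗ[F] (Y → F) where
  toFun y := ∑ A ∈ D.powerset, y A
  map_add' y y' := by
    simp only [Pi.add_apply]
    exact Finset.sum_add_distrib
  map_smul' r y := by
    simp only [Pi.smul_apply, RingHom.id_apply]
    exact Finset.smul_sum.symm

theorem sm_apply (D : Finset (Fin X.n)) (y : Finset (Fin X.n) → (Y → F)) : sm X D y = ∑ A ∈ D.powerset, y A := rfl

theorem L_subset {σ τ A : Finset (Fin X.n)} (h : σ ⊆ τ) : L X σ A ⊆ L X τ A := Finset.image_subset_image h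

theorem clique_L {σ A : Finset (Fin X.n)} (h : X.z σ ≠ 0) : G.IsClique ((L X σ A : Finset V) : Set V) := by
  intro s hs t ht hst
  unfold L at hs ht
  rw [Finset.mem_coe, Finset.mem_image] at hs ht
  obtain ⟨v, hv, rfl⟩ := hs
  obtain ⟨w, hw, rfl⟩ := ht
  refine X.clique σ h v hv w hw ?_ _ _
  rintro rfl
  exact hst rfl

theorem lv_U (A : Finset (Fin X.n)) {v : Fin X.n} (hv : v ∈ X.U) : lv X A v = X.j v true := by
  unfold lv
  by_cases h : v ∈ A
  · simp [h, X.j_U v hv]
  · simp [h]

theorem L_U {σ : Finset (Fin X.n)} (h : σ ⊆ X.U) (A B : Finset (Fin X.n)) : L X σ A = L X σ B := by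
  unfold L
  refine Finset.image_congr fun v hv => ?_
  show lv X A v = lv X B v
  rw [lv_U X A (h hv), lv_U X B (h hv)]

theorem L_sub_clique {σ τ A : Finset (Fin X.n)} (h : X.z σ ≠ 0) (hτ : τ ⊆ σ) :
    G.IsClique ((L X τ A : Finset V) : Set V) :=
  (clique_L X h (A := A)).subset (by exact_mod_cast L_subset X hτ)

theorem card_L_sub {σ τ A : Finset (Fin X.n)} (h : X.z σ ≠ 0) (hτ : τ ⊆ σ) : (L X τ A).card = τ.card := by
  unfold L
  exact Finset.card_image_of_injOn ((lv_inj X h A).mono (by exact_mod_cast hτ))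

theorem clique_Us : G.IsClique ((L X (X.U ∪ X.s) X.A : Finset V) : Set V) := by
  intro s hs t ht hst
  unfold L at hs ht
  rw [Finset.mem_coe, Finset.mem_image] at hs ht
  obtain ⟨v, hv, rfl⟩ := hs
  obtain ⟨w, hw, rfl⟩ := ht
  refine X.cliqueU v hv w hw ?_
  rintro rfl
  exact hst rfl

theorem card_Us : (L X (X.U ∪ X.s) X.A).card = (X.U ∪ X.s).card := by
  unfold L
  refine Finset.card_image_of_injOn fun v hv w hw h => ?_
  by_contra hne
  exact (X.cliqueU v hv w hw hne).ne h

section dims

variable (hdim : ∀ T : Finset V, G.IsClique (T : Set V) → finrank F (ET F a T) * 2 ^ T.card = Fintype.card Y)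

include hdim

theorem codim_im {σ : Finset (Fin X.n)} (hσ : X.z σ ≠ 0) :
    finrank F (ET F a (L X (σ ∩ X.U) ∅)) ≤ finrank F ((ES X a σ).map (sm X (σ \ X.U))) +
      finrank F (KD X a (σ \ X.U)) := by
  classical
  have h1 := finrank_map_add (sm (F := F) (Y := Y) X (σ \ X.U)) (ES X a σ)
  have h2 : (ES X a σ ⊓ LinearMap.ker (sm X (σ \ X.U)) : Submodule F (Finset (Fin X.n) → (Y → F))) ≤
      KD X a (σ \ X.U) := by
    rintro y ⟨⟨hy1, hy2⟩, hy3⟩
    refine ⟨hy1, fun A t ht x => hy2 A t (L_subset X Finset.sdiff_subset ht) x, ?_⟩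
    exact LinearMap.mem_ker.1 hy3
  have h3 := Submodule.finrank_mono h2
  obtain ⟨p, hp⟩ : ∃ p : Finset (Fin X.n) → Submodule F (Y → F),
      p = fun A => if A ⊆ σ \ X.U then ET F a (L X σ A) else ⊥ := ⟨_, rfl⟩
  have h4 : ∑ A, finrank F (p A) ≤ finrank F (ES X a σ) := by
    refine finrank_pi_ge _ p fun c hc => ⟨fun A hA => ?_, fun A => ?_⟩
    · have h5 := hc A
      rw [hp] at h5
      simp only at h5
      rw [if_neg hA, Submodule.mem_bot] at h5
      exact h5
    · have h5 := hc A
      rw [hp] at h5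
      simp only at h5
      split_ifs at h5
      · exact h5
      · rw [Submodule.mem_bot] at h5
        rw [h5]
        exact zero_mem _
  have h5 : (∑ A, finrank F (p A)) * 2 ^ σ.card = 2 ^ (σ \ X.U).card * Fintype.card Y := by
    rw [← Finset.card_powerset (σ \ X.U), ← smul_eq_mul (Finset.card _) (Fintype.card Y), ← Finset.sum_const,
      ← Finset.sum_subset (Finset.subset_univ (σ \ X.U).powerset), Finset.sum_mul]
    · refine Finset.sum_congr rfl fun A hA => ?_
      have e : p A = ET F a (L X σ A) := by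
        rw [hp]
        exact if_pos (Finset.mem_powerset.1 hA)
      rw [e, ← card_L X hσ A]
      exact hdim _ (clique_L X hσ)
    · intro A _ hA
      have e : p A = ⊥ := by
        rw [hp]
        exact if_neg (fun h => hA (Finset.mem_powerset.2 h))
      rw [e, finrank_bot]
  have h6 := hdim _ (L_sub_clique X hσ (A := ∅) (Finset.inter_subset_left : σ ∩ X.U ⊆ σ))
  rw [card_L_sub X hσ Finset.inter_subset_left] at h6
  have h7 : (σ ∩ X.U).card + (σ \ X.U).card = σ.card := Finset.card_inter_add_card_sdiff σ X.U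
  have h8 : finrank F (ET F a (L X (σ ∩ X.U) ∅)) * 2 ^ σ.card = (∑ A, finrank F (p A)) * 2 ^ σ.card := by
    rw [h5, ← h7, pow_add, ← mul_assoc, h6, mul_comm]
  have h9 := Nat.eq_of_mul_eq_mul_right (by positivity) h8
  omega

/-- the good elements -/
theorem exists_M (k : ℕ) (hk : ∀ D : Finset (Fin X.n), Disjoint D X.U → finrank F (KD X a D) ≤ k) :
    ∃ M : Submodule F (Y → F), M ≤ ET F a (L X (X.U ∪ X.s) X.A) ∧ (∀ m ∈ M, ∀ σ, X.z σ ≠ 0 → ∃ y ∈ ES X a σ, sm X (σ \ X.U) y = m) ∧
      finrank F (ET F a (L X (X.U ∪ X.s) X.A)) ≤ finrank F M + 2 ^ X.n * k := by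
  classical
  obtain ⟨M, h1, h2, h3⟩ := codim_inf (F := F) (E := Y → F) (ι := Finset (Fin X.n))
    (fun σ => ((if X.z σ ≠ 0 then (ES X a σ).map (sm X (σ \ X.U)) else ⊤ : Submodule F (Y → F))).mkQ)
    (ET F a (L X (X.U ∪ X.s) X.A)) (fun _ => k) (by
      intro σ
      by_cases hσ : X.z σ ≠ 0
      · rw [if_pos hσ]
        have h1 := codim_im X a hdim hσ
        have h2 := hk (σ \ X.U) Finset.sdiff_disjoint
        have h3 : (ES X a σ).map (sm X (σ \ X.U)) ≤ ET F a (L X (σ ∩ X.U) ∅) := by
          rintro _ ⟨y, hy, rfl⟩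
          rw [sm_apply]
          refine sum_mem fun A _ => ?_
          intro t ht x
          refine hy.2 A t ?_ x
          rw [L_U X Finset.inter_subset_right ∅ A] at ht
          exact L_subset X Finset.inter_subset_left ht
        have h4 : (ET F a (L X (X.U ∪ X.s) X.A)) ≤ ET F a (L X (σ ∩ X.U) ∅) := by
          intro f hf t ht x
          refine hf t ?_ x
          rw [L_U X Finset.inter_subset_right ∅ X.A] at ht
          exact L_subset X (Finset.inter_subset_right.trans Finset.subset_union_left) ht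
        have h5 := Submodule.finrank_mono (Submodule.map_mono (f := ((ES X a σ).map (sm X (σ \ X.U))).mkQ) h4)
        have h6 := finrank_map_add ((ES X a σ).map (sm X (σ \ X.U))).mkQ (ET F a (L X (σ ∩ X.U) ∅))
        rw [Submodule.ker_mkQ, inf_eq_right.2 h3] at h6
        omega
      · rw [if_neg hσ]
        have h7 : Submodule.map (⊤ : Submodule F (Y → F)).mkQ (ET F a (L X (X.U ∪ X.s) X.A)) = ⊥ := by
          rw [eq_bot_iff]
          rintro _ ⟨y, _, rfl⟩
          rw [Submodule.mem_bot, Submodule.mkQ_apply, Submodule.Quotient.mk_eq_zero]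
          trivial
        rw [h7, finrank_bot]
        exact Nat.zero_le _) Finset.univ
  refine ⟨M, h1, fun m hm σ hσ => ?_, ?_⟩
  · have h4 := h2 σ (Finset.mem_univ _) m hm
    rw [if_pos hσ, Submodule.mkQ_apply, Submodule.Quotient.mk_eq_zero] at h4
    obtain ⟨y, hy, he⟩ := h4
    exact ⟨y, hy, he⟩
  · rw [Finset.sum_const, Finset.card_univ, Fintype.card_finset, Fintype.card_fin, smul_eq_mul] at h3
    exact h3

end dims

/-- the families whose sums over the lifts are proportional to the cycle -/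
def QQ (M : Submodule F (Y → F)) : Submodule F (Finset (Fin X.n) → Finset (Fin X.n) → (Y → F)) where
  carrier := {x | (∀ σ, x σ ∈ ES X a σ) ∧ (∀ σ, X.z σ = 0 → x σ = 0) ∧
    ∃ m ∈ M, ∀ σ, sm X (σ \ X.U) (x σ) = X.z σ • m}
  add_mem' := by
    rintro x x' ⟨h1, h2, m, hm, h3⟩ ⟨h1', h2', m', hm', h3'⟩
    refine ⟨fun σ => add_mem (h1 σ) (h1' σ), fun σ hσ => ?_, m + m', add_mem hm hm', fun σ => ?_⟩
    · rw [Pi.add_apply, h2 σ hσ, h2' σ hσ, add_zero]
    · rw [Pi.add_apply, map_add, h3, h3', smul_add]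
  zero_mem' := ⟨fun σ => zero_mem _, fun σ _ => rfl, 0, zero_mem _, fun σ => by rw [Pi.zero_apply, map_zero, smul_zero]⟩
  smul_mem' := by
    rintro r x ⟨h1, h2, m, hm, h3⟩
    refine ⟨fun σ => Submodule.smul_mem _ r (h1 σ), fun σ hσ => ?_, r • m, Submodule.smul_mem _ r hm, fun σ => ?_⟩
    · rw [Pi.smul_apply, h2 σ hσ, smul_zero]
    · rw [Pi.smul_apply, map_smul, h3, smul_comm]

theorem QQ_ge (M : Submodule F (Y → F)) (hM0 : M ≤ ET F a (L X (X.U ∪ X.s) X.A))
    (hM : ∀ m ∈ M, ∀ σ, X.z σ ≠ 0 → ∃ y ∈ ES X a σ, sm X (σ \ X.U) y = m) (m : Y → F) (hm : m ∈ M) :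
    ∃ x ∈ QQ X a M, x X.s X.A = m := by
  classical
  have hm' : (X.z X.s)⁻¹ • m ∈ M := Submodule.smul_mem _ _ hm
  have h2 := hM _ hm'
  choose! y hy1 hy2 using h2
  refine ⟨fun σ => if σ = X.s then Pi.single X.A m else if X.z σ = 0 then 0 else X.z σ • y σ,
    ⟨fun σ => ?_, fun σ hσ => ?_, _, hm', fun σ => ?_⟩, ?_⟩
  · simp only
    by_cases h : σ = X.s
    · rw [if_pos h]
      subst h
      refine ⟨fun B hB => ?_, fun B => ?_⟩
      · rw [Pi.single_eq_of_ne]
        rintro rfl
        exact hB X.A_s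
      · by_cases hB : B = X.A
        · subst hB
          rw [Pi.single_eq_same]
          intro t ht x
          exact hM0 hm t (L_subset X Finset.subset_union_right ht) x
        · rw [Pi.single_eq_of_ne hB]
          exact zero_mem _
    · rw [if_neg h]
      split_ifs with h'
      · exact zero_mem _
      · exact Submodule.smul_mem _ _ (hy1 σ h')
  · simp only
    rw [if_neg (fun h : σ = X.s => X.z_s (by rw [← h]; exact hσ)), if_pos hσ]
  · simp only
    by_cases h : σ = X.s
    · rw [if_pos h]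
      subst h
      rw [sm_apply, Finset.sum_eq_single X.A, Pi.single_eq_same, smul_smul, mul_inv_cancel₀ X.z_s, one_smul]
      · intro B _ hB
        exact Pi.single_eq_of_ne hB _
      · intro h
        exact absurd (Finset.mem_powerset.2 X.A_s) h
    · rw [if_neg h]
      split_ifs with h'
      · rw [map_zero, h', zero_smul]
      · rw [map_smul, hy2 σ h']
  · show (if X.s = X.s then Pi.single X.A m else if X.z X.s = 0 then 0 else X.z X.s • y X.s) X.A = m
    rw [if_pos rfl, Pi.single_eq_same]

/-- the boundary map over a simplex -/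
def ddL (τ : Finset (Fin X.n)) : (Finset (Fin X.n) → Finset (Fin X.n) → (Y → F)) →ₗ[F]
    (Finset (Fin X.n) → (Y → F)) where
  toFun x A := if A ⊆ τ \ X.U then dd X x τ A else 0
  map_add' := by
    intro x x'
    funext A
    simp only [Pi.add_apply]
    split_ifs with h
    · unfold dd
      rw [← Finset.sum_add_distrib]
      refine Finset.sum_congr rfl fun v _ => ?_
      rw [← smul_add]
      congr 1
      by_cases hv : v ∈ X.U
      · simp only [if_pos hv, Pi.add_apply, add_zero]
      · simp only [if_neg hv, Pi.add_apply]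
        abel
    · rw [add_zero]
  map_smul' := by
    intro r x
    funext A
    simp only [Pi.smul_apply, RingHom.id_apply]
    split_ifs with h
    · unfold dd
      rw [Finset.smul_sum]
      refine Finset.sum_congr rfl fun v _ => ?_
      rw [smul_comm r]
      congr 1
      by_cases hv : v ∈ X.U
      · simp only [if_pos hv, Pi.smul_apply, add_zero]
      · simp only [if_neg hv, Pi.smul_apply, smul_add]
    · rw [smul_zero]

theorem ddL_apply (τ : Finset (Fin X.n)) (x : Finset (Fin X.n) → Finset (Fin X.n) → (Y → F)) (A : Finset (Fin X.n)) :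
    ddL X τ x A = if A ⊆ τ \ X.U then dd X x τ A else 0 := rfl

theorem ddL_mem (M : Submodule F (Y → F)) (τ : Finset (Fin X.n)) : (QQ X a M).map (ddL X τ) ≤ KD X a (τ \ X.U) := by
  classical
  rintro _ ⟨x, ⟨h1, h2, m, hm, h3⟩, rfl⟩
  refine ⟨fun A hA => ?_, fun A => ?_, ?_⟩
  · rw [ddL_apply, if_neg hA]
  · rw [ddL_apply]
    split_ifs with hA
    · unfold dd
      refine sum_mem fun v hv => ?_
      have hv' : v ∉ τ := by simpa using hv
      refine zsmul_mem (add_mem ?_ ?_) _
      · intro t ht y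
        refine (h1 (insert v τ)).2 A t ?_ y
        exact L_subset X (Finset.sdiff_subset.trans (Finset.subset_insert _ _)) ht
      · split_ifs with hU
        · exact zero_mem _
        · intro t ht y
          refine (h1 (insert v τ)).2 (insert v A) t ?_ y
          rw [L_insert, L_insert_of X τ A v hv']
          exact Finset.mem_insert_of_mem (L_subset X Finset.sdiff_subset ht)
    · exact zero_mem _
  · have h4 : ∑ A ∈ (τ \ X.U).powerset, ddL X τ x A = ∑ A ∈ (τ \ X.U).powerset, dd X x τ A :=
      Finset.sum_congr rfl fun A hA => if_pos (Finset.mem_powerset.1 hA)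
    rw [h4]
    unfold dd
    rw [Finset.sum_comm]
    have h5 : ∀ v ∈ τᶜ, (∑ A ∈ (τ \ X.U).powerset, sg v τ • (x (insert v τ) A + if v ∈ X.U then 0 else
        x (insert v τ) (insert v A))) = (sg v τ • X.z (insert v τ)) • m := by
      intro v hv
      have hv' : v ∉ τ := by simpa using hv
      rw [← Finset.smul_sum, Finset.sum_add_distrib, smul_assoc, ← h3, sm_apply]
      congr 1
      by_cases hU : v ∈ X.U
      · rw [Finset.insert_sdiff_of_mem _ hU]
        simp only [if_pos hU]
        rw [Finset.sum_const_zero, add_zero]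
      · rw [Finset.insert_sdiff_of_notMem _ hU,
          Finset.sum_powerset_insert (fun h => hv' (Finset.mem_sdiff.1 h).1)]
        simp only [if_neg hU]
    rw [Finset.sum_congr rfl h5, ← Finset.sum_smul, X.z_cyc τ, zero_smul]

/-- the chain map -/
def ccL : (Finset (Fin X.n) → Finset (Fin X.n) → (Y → F)) →ₗ[F] (Finset V → (Y → F)) where
  toFun x := cc X x
  map_add' := by
    intro x x'
    funext T
    unfold cc
    rw [Pi.add_apply, ← Finset.sum_add_distrib]
    refine Finset.sum_congr rfl fun σ _ => ?_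
    rw [← Finset.sum_add_distrib]
    refine Finset.sum_congr rfl fun A _ => ?_
    simp only [Pi.add_apply]
    split_ifs
    · rw [smul_add]
    · rw [add_zero]
  map_smul' := by
    intro r x
    funext T
    unfold cc
    rw [RingHom.id_apply, Pi.smul_apply, Finset.smul_sum]
    refine Finset.sum_congr rfl fun σ _ => ?_
    rw [Finset.smul_sum]
    refine Finset.sum_congr rfl fun A _ => ?_
    simp only [Pi.smul_apply]
    split_ifs
    · rw [smul_comm]
    · rw [smul_zero]

theorem ccL_apply (x : Finset (Fin X.n) → Finset (Fin X.n) → (Y → F)) : ccL X x = cc X x := rfl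

theorem eta_ne (σ A : Finset (Fin X.n)) : eta X σ A = 1 ∨ eta X σ A = -1 := by
  unfold eta
  have h1 : ∀ (s : Finset (Fin X.n)) (f : Fin X.n → ℤ), (∀ v ∈ s, f v = 1 ∨ f v = -1) →
      (∏ v ∈ s, f v = 1 ∨ ∏ v ∈ s, f v = -1) := by
    intro s f
    classical
    induction s using Finset.induction_on with
    | empty => intro _; left; simp
    | insert v s hv ih =>
      intro h
      rw [Finset.prod_insert hv]
      rcases h v (Finset.mem_insert_self _ _) with h1 | h1 <;>
        rcases ih (fun w hw => h w (Finset.mem_insert_of_mem hw)) with h2 | h2 <;> simp [h1, h2]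
  refine h1 _ _ fun v _ => h1 _ _ fun w _ => ?_
  split_ifs
  · right; rfl
  · left; rfl

theorem cc_L (x : Finset (Fin X.n) → Finset (Fin X.n) → (Y → F)) (hx : ∀ σ, X.z σ = 0 → x σ = 0) :
    cc X x (L X X.s X.A) = eta X X.s X.A • x X.s X.A := by
  classical
  unfold cc
  rw [Finset.sum_eq_single X.s, Finset.sum_eq_single X.A]
  · rw [if_pos rfl]
  · intro B hB hne
    rw [if_neg]
    intro h
    exact hne (X.uniq X.s B X.z_s (Finset.mem_powerset.1 hB) h).2
  · intro h
    exact absurd (Finset.mem_powerset.2 X.A_s) h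
  · intro τ _ hne
    refine Finset.sum_eq_zero fun B hB => ?_
    by_cases hτ : X.z τ = 0
    · rw [hx τ hτ, Pi.zero_apply, smul_zero, ite_self]
    rw [if_neg]
    intro h
    exact hne (X.uniq τ B hτ (Finset.mem_powerset.1 hB) h).1
  · intro h
    exact absurd (Finset.mem_univ _) h

theorem cc_mem (M : Submodule F (Y → F)) (x : Finset (Fin X.n) → Finset (Fin X.n) → (Y → F)) (hx : x ∈ QQ X a M)
    (hd : ∀ τ A, A ⊆ τ \ X.U → dd X x τ A = 0) (S : Set V) (hS : ∀ v b, X.j v b ∈ S) :
    cc X x ∈ ZZ G (pull F a) S ∅ (d + 1) := by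
  classical
  refine ⟨⟨fun T hT => ?_, fun T t ht => ?_⟩, ?_⟩
  · unfold cc
    refine Finset.sum_eq_zero fun σ _ => Finset.sum_eq_zero fun A hA => ?_
    split_ifs with h
    · by_cases hz : X.z σ = 0
      · rw [hx.2.1 σ hz, Pi.zero_apply, smul_zero]
      · exfalso
        apply hT
        subst h
        refine ⟨clique_L X hz, ?_, ?_⟩
        · intro v hv
          unfold L at hv
          rw [Finset.mem_coe, Finset.mem_image] at hv
          obtain ⟨w, _, rfl⟩ := hv
          exact hS _ _
        · rw [card_L X hz, X.z_card σ hz]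
    · rfl
  · have ht' : t ∈ T := by
      rcases ht with h | h
      · exact h
      · exact absurd h (Set.notMem_empty t)
    have h1 : cc X x T ∈ ET F a T := by
      unfold cc
      refine sum_mem fun σ _ => sum_mem fun A _ => ?_
      split_ifs with h
      · subst h
        exact zsmul_mem ((hx.1 σ).2 A) _
      · exact zero_mem _
    funext y
    exact h1 t ht' y
  · rw [SetLike.mem_coe, LinearMap.mem_ker]
    funext T
    rw [bd_cc X x hx.2.1]
    refine Finset.sum_eq_zero fun τ _ => Finset.sum_eq_zero fun A hA => ?_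
    rw [hd τ A (Finset.mem_powerset.1 hA), smul_zero, ite_self]

theorem growth (hdim : ∀ T : Finset V, G.IsClique (T : Set V) → finrank F (ET F a T) * 2 ^ T.card = Fintype.card Y)
    (k : ℕ) (hk : ∀ D : Finset (Fin X.n), Disjoint D X.U → finrank F (KD X a D) ≤ k) (S : Set V)
    (hS : ∀ v b, X.j v b ∈ S) :
    finrank F (ET F a (L X (X.U ∪ X.s) X.A)) ≤ finrank F (ZZ G (pull F a) S ∅ (d + 1)) + 2 * (2 ^ X.n * k) := by
  classical
  obtain ⟨M, hM0, hM1, hM2⟩ := exists_M X a hdim k hk
  obtain ⟨Q, h2, h3, h4⟩ := codim_inf (F := F) (fun τ : Finset (Fin X.n) => ddL (F := F) (Y := Y) X τ) (QQ X a M)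
    (fun _ => k) (fun τ => (Submodule.finrank_mono (ddL_mem X a M τ)).trans (hk _ Finset.sdiff_disjoint))
    Finset.univ
  rw [Finset.sum_const, Finset.card_univ, Fintype.card_finset, Fintype.card_fin, smul_eq_mul] at h4
  let ev : (Finset (Fin X.n) → Finset (Fin X.n) → (Y → F)) →ₗ[F] (Y → F) :=
    { toFun := fun x => x X.s X.A
      map_add' := fun _ _ => rfl
      map_smul' := fun _ _ => rfl }
  have hev : ∀ x, ev x = x X.s X.A := fun x => rfl
  have e1 := finrank_map_add ev (QQ X a M)
  have e2 := finrank_map_add ev Q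
  have e3 : finrank F (Q ⊓ LinearMap.ker ev : Submodule F (Finset (Fin X.n) → Finset (Fin X.n) → (Y → F))) ≤
      finrank F (QQ X a M ⊓ LinearMap.ker ev : Submodule F (Finset (Fin X.n) → Finset (Fin X.n) → (Y → F))) :=
    Submodule.finrank_mono (inf_le_inf_right _ h2)
  have e4 : finrank F M ≤ finrank F ((QQ X a M).map ev) := by
    refine Submodule.finrank_mono fun m hm => ?_
    obtain ⟨x, hx, hxm⟩ := QQ_ge X a M hM0 hM1 m hm
    exact ⟨x, hx, hxm⟩
  have h5 : finrank F (Q.map ev) ≤ finrank F (ZZ G (pull F a) S ∅ (d + 1)) := by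
    have e5 : Q.map ev ≤ (ZZ G (pull F a) S ∅ (d + 1)).map (LinearMap.proj (L X X.s X.A)) := by
      rintro _ ⟨x, hx, rfl⟩
      have h6 : ccL X x ∈ ZZ G (pull F a) S ∅ (d + 1) := cc_mem X a M x (h2 hx) (fun τ A hA => by
          have h6 := congrFun (h3 τ (Finset.mem_univ _) x hx) A
          rw [ddL_apply, if_pos hA] at h6
          exact h6) S hS
      have h7 := cc_L X x (h2 hx).2.1
      rcases eta_ne X X.s X.A with h8 | h8
      · refine ⟨ccL X x, h6, ?_⟩
        rw [LinearMap.proj_apply, ccL_apply, h7, h8, one_smul, hev]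
      · refine ⟨- ccL X x, neg_mem h6, ?_⟩
        rw [LinearMap.proj_apply, Pi.neg_apply, ccL_apply, h7, h8, neg_one_smul, neg_neg, hev]
    exact (Submodule.finrank_mono e5).trans (Submodule.finrank_map_le _ _)
  omega

theorem p1w (V F : Type) [Fintype V] [LinearOrder V] [Field F] (G : SimpleGraph V) (d : ℕ) (X : DblW F G d)
    (ε : ℝ) (h2 : (2 : F) ≠ 0) (hε : 0 < ε) : ∃ E : Finset (W G), (1 : W G) ∉ E ∧
    ∀ (Y : Type) [Fintype Y] (P : FSet G E Y) (A : Set V), (∀ v b, X.j v b ∈ A) →
      ((1 / 2) ^ (X.U ∪ X.s).card - ε) * Fintype.card Y ≤ finrank F (ZZ G (pull F P.a) A ∅ (d + 1)) := by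
  classical
  obtain ⟨N, hN⟩ := exists_nat_gt ((4 * 4 ^ X.n : ℝ) / ε)
  have hN' : (4 * 4 ^ X.n : ℝ) < N * ε := (div_lt_iff₀ hε).1 hN
  have hN0 : (0 : ℝ) < N := lt_of_le_of_lt (by positivity) hN
  have hN0' : 0 < N := by exact_mod_cast hN0
  obtain ⟨E0, hE01, hE02⟩ := exists_tor G
  have h1 : ∀ v : Fin X.n, ∃ E : Finset (W G), (1 : W G) ∉ E ∧ (v ∉ X.U → ∀ (Y : Type) [Fintype Y] (P : FSet G E Y)
      (K : Submodule F (Y → F)), (∀ f ∈ K, ∀ y, f (P.a (X.j v true) y) = - f y) →
      (∀ f ∈ K, ∀ y, f (P.a (X.j v false) y) = - f y) → N * finrank F K ≤ Fintype.card Y) := by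
    intro v
    by_cases hv : v ∈ X.U
    · exact ⟨∅, Finset.notMem_empty _, fun h => absurd hv h⟩
    · obtain ⟨E, hE1, hE2⟩ := small_dih G (X.j_adj v hv).1 (X.j_adj v hv).2 N
      exact ⟨E, hE1, fun _ Y _ P K h3 h4 => hE2 F Y P K h3 h4⟩
  choose Ef hEf1 hEf2 using h1
  refine ⟨(Finset.univ).biUnion Ef ∪ E0, ?_, ?_⟩
  · rw [Finset.mem_union, Finset.mem_biUnion]
    rintro (⟨i, _, h⟩ | h)
    · exact hEf1 i h
    · exact hE01 h
  intro Y _ P S hS
  have hdim : ∀ T : Finset V, G.IsClique (T : Set V) → finrank F (ET F P.a T) * 2 ^ T.card = Fintype.card Y := by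
    intro T hT
    refine ET_dim' h2 G P.a P.inv P.comm (fun T t ht hc => ?_) T hT
    exact exists_sigma G P.a P.ev P.ev_one P.ev_mul P.ev_simple (fun T hT g hg hg1 x =>
      P.free g (Finset.mem_union_right _ (hE02 T hT g hg hg1)) x) T t ht hc
  obtain ⟨k, hk⟩ : ∃ k : ℕ, k = 2 * 2 ^ X.n * Fintype.card Y / N := ⟨_, rfl⟩
  have hKD : ∀ D : Finset (Fin X.n), Disjoint D X.U → finrank F (KD X P.a D) ≤ k := by
    intro D hD
    rw [hk, Nat.le_div_iff_mul_le hN0', mul_comm]
    refine (KD_small X P.a N D (fun v hv K h3 h4 => ?_)).trans ?_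
    · have hvU : v ∉ X.U := Finset.disjoint_left.1 hD hv
      exact hEf2 v hvU Y (fmono P (Finset.subset_union_left.trans' (Finset.subset_biUnion_of_mem Ef
        (Finset.mem_univ v)))) K h3 h4
    · have h5 : D.card ≤ X.n := by
        have := Finset.card_le_univ D
        rwa [Fintype.card_fin] at this
      have h6 : 2 ^ D.card ≤ 2 ^ X.n := Nat.pow_le_pow_right (by norm_num) h5
      nlinarith [Nat.zero_le (Fintype.card Y)]
  have h3 := growth X P.a hdim k hKD S hS
  have h4 := hdim _ (clique_Us X)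
  rw [card_Us] at h4
  have h5 : (k : ℝ) * N ≤ 2 * 2 ^ X.n * Fintype.card Y := by
    have h6 : k * N ≤ 2 * 2 ^ X.n * Fintype.card Y := by
      rw [hk]
      exact Nat.div_mul_le_self _ _
    exact_mod_cast h6
  have h6 : (2 * (2 ^ X.n * k) : ℝ) ≤ ε * Fintype.card Y := by
    have h7 : (2 * (2 ^ X.n * k) : ℝ) * N ≤ (ε * Fintype.card Y) * N := by
      calc (2 * (2 ^ X.n * k) : ℝ) * N = 2 * 2 ^ X.n * (k * N) := by ring
        _ ≤ 2 * 2 ^ X.n * (2 * 2 ^ X.n * Fintype.card Y) := mul_le_mul_of_nonneg_left h5 (by positivity)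
        _ = (4 * 4 ^ X.n) * Fintype.card Y := by
            rw [show (4 : ℝ) ^ X.n = 2 ^ X.n * 2 ^ X.n by rw [← mul_pow]; norm_num]
            ring
        _ ≤ (N * ε) * Fintype.card Y := mul_le_mul_of_nonneg_right hN'.le (Nat.cast_nonneg _)
        _ = _ := by ring
    exact le_of_mul_le_mul_right h7 hN0
  have h7 : ((1 / 2 : ℝ) ^ (X.U ∪ X.s).card) * Fintype.card Y = finrank F (ET F P.a (L X (X.U ∪ X.s) X.A)) := by
    rw [← h4]
    push_cast
    rw [mul_comm, mul_assoc, ← mul_pow]
    norm_num
  have h8 : (finrank F (ET F P.a (L X (X.U ∪ X.s) X.A)) : ℝ) ≤ finrank F (ZZ G (pull F P.a) S ∅ (d + 1)) +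
      2 * (2 ^ X.n * k) := by exact_mod_cast h3
  rw [sub_mul, h7]
  linarith

end Pool.Agent.V8H3.LT.NI
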