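import Pool.Agent.V8H3.LT.NI2
import Pool.Agent.V8H3.LT.Fin

/-!
# Project LT: the main theorem for doubled cycles with shared lifts
-/

set_option autoImplicit false

open scoped Matrix

noncomputable section

namespace Pool.Agent.V8H3.LT.NI

open Module Filter Topology Pool.Agent.W907.SG Pool.Agent.W907.SM Pool.Agent.TH630.Tor Pool.Agent.W461.SGN Pool.Agent.R782.Bal
open Pool.Agent.N496.LT Pool.Agent.N504.RS
open Pool.Agent.TH652.Above (HSph singer_of_above lv_univ)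
open Pool.Agent.N504.RS.Two (HSph2 e1_two emb_of_hsph2)
open Pool.Agent.Y132.SI (aa ev ev_one ev_mul ev_free aa_inv aa_comm)
open Pool.Agent.V8H3.LT (rel3A)

section growth

variable {d : ℕ} {V : Type} [Fintype V] [LinearOrder V] {G : SimpleGraph V} {A : Set V}

theorem growthW (hP2 : P2G) (hP3 : P3A) (hP4 : P4B)
    (hM : MidP G A) (κ : V → Fin (d + 1)) (hκ : ∀ u ∈ A, ∀ v ∈ A, G.Adj u v → κ u ≠ κ v)
    (hL : ∀ i, L2Van G i)
    (p : ℕ) [Fact p.Prime] (hp : p ≠ 2) (Z : DblW (ZMod p) G d) (hZ : ∀ v b, Z.j v b ∈ A)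
    (K : ℕ → Subgroup (th G).ker) [∀ i, (K i).Normal] (hf : ∀ i, (K i).FiniteIndex) (ha : Antitone K)
    (hi : ⨅ i, K i = ⊥) (c : ℝ) (hc : c < 2 ^ Fintype.card V / 2 ^ (Z.U ∪ Z.s).card) :
    ∀ᶠ i in atTop, ∀ [Fintype ((th G).ker ⧸ K i)],
      c * (K i).index ≤ ((davis G).quot (K i)).tp p d := by
  classical
  have h2 : (2 : ZMod p) ≠ 0 := by
    intro h
    have h3 : ((2 : ℕ) : ZMod p) = 0 := by exact_mod_cast h
    rw [ZMod.natCast_eq_zero_iff] at h3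
    exact hp ((Nat.prime_dvd_prime_iff_eq (Fact.out) Nat.prime_two).1 h3)
  obtain ⟨δ, hδ⟩ : ∃ δ : ℝ, δ = (1 / 2) ^ (Z.U ∪ Z.s).card - c / 2 ^ Fintype.card V := ⟨_, rfl⟩
  have h2V : (0 : ℝ) < 2 ^ Fintype.card V := by positivity
  have hδ0 : 0 < δ := by
    rw [hδ, sub_pos, div_lt_iff₀ h2V]
    calc c < 2 ^ Fintype.card V / 2 ^ (Z.U ∪ Z.s).card := hc
      _ = (1 / 2) ^ (Z.U ∪ Z.s).card * 2 ^ Fintype.card V := by
          rw [one_div, inv_pow]; ring
  obtain ⟨m, hmm⟩ := exists_nat_gt (4 / δ)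
  have hm0 : (0 : ℝ) < m := lt_trans (by positivity) hmm
  obtain ⟨E1, hE1, g1⟩ := p1w V (ZMod p) G d Z (δ / 4) h2 (by positivity)
  obtain ⟨E2, hE2, g2⟩ := hP2 V (ZMod p) G A hM (δ / 4) h2 (by positivity)
  obtain ⟨E3, hE3, g3⟩ := small V G (d + 1) (hL _) m
  have hev : ∀ᶠ i in atTop, ∀ g ∈ E1 ∪ E2 ∪ E3, ∀ x : W G,
      x * g * x⁻¹ ∉ (K i).map (th G).ker.subtype := by
    rw [Filter.eventually_all_finset]
    intro g hg
    refine ev_avoid G K ha hi g ?_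
    rintro rfl
    simp only [Finset.mem_union] at hg
    tauto
  filter_upwards [hev] with i hav
  intro inst
  obtain ⟨H, hH⟩ : ∃ H, H = (K i).map (th G).ker.subtype := ⟨_, rfl⟩
  rw [← hH] at hav
  have hidx : H.index = (K i).index * 2 ^ Fintype.card V := by
    rw [hH, Subgroup.index_map_subtype, index_th]
  have : H.FiniteIndex := ⟨by rw [hidx]; exact mul_ne_zero (hf i).index_ne_zero (by positivity)⟩
  have : Finite (Quotient (QuotientGroup.rightRel H)) :=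
    Finite.of_equiv _ (QuotientGroup.quotientRightRelEquivQuotientLeftRel H).symm
  letI : Fintype (Quotient (QuotientGroup.rightRel H)) := Fintype.ofFinite _
  have hcard : (Fintype.card (Quotient (QuotientGroup.rightRel H)) : ℝ) =
      (K i).index * 2 ^ Fintype.card V := by
    rw [← Nat.card_eq_fintype_card, Nat.card_congr (QuotientGroup.quotientRightRelEquivQuotientLeftRel H)]
    show ((H.index : ℕ) : ℝ) = _
    rw [hidx]
    push_cast
    rfl
  obtain ⟨Yc, hYc⟩ : ∃ y : ℝ, y = (Fintype.card (Quotient (QuotientGroup.rightRel H)) : ℝ) := ⟨_, rfl⟩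
  have hYc0 : 0 ≤ Yc := by rw [hYc]; positivity
  -- the three estimates
  have e1 := g1 _ (fset G H E1 fun g hg => hav g (by simp [hg])) A hZ
  have e2 := g2 _ (fset G H E2 fun g hg => hav g (by simp [hg]))
  have e3 := g3 _ (aa G H) (ev G H) (aa_inv G H) (fun u v h x => aa_comm G H u v h x)
    (ev_one G H) (ev_mul G H) (fun _ _ => rfl)
    (fun g hg x => ev_free G H (hav g (by simp [hg])) x)
  have e1' : beta G (pull (ZMod p) (aa G H)) A ∅ (d + 1) =
      finrank (ZMod p) (Pool.Agent.W907.SG.ZZ G (pull (ZMod p) (aa G H)) A ∅ (d + 1)) := by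
    unfold beta BB
    rw [KK_eq_botG hκ _ (d + 1 + 1) (by omega), Submodule.map_bot, finrank_bot, Nat.sub_zero]
  have e1'' : beta G (pull (ZMod p) (aa G H)) A ∅ (d + 2) = 0 := by
    unfold beta Pool.Agent.W907.SG.ZZ
    rw [KK_eq_botG hκ _ (d + 2) (by omega), bot_inf_eq, finrank_bot, Nat.zero_sub]
  have f1 := (abs_le.1 (e2 (d + 1))).1
  have f2 := (abs_le.1 (e2 (d + 2))).2
  change -(δ / 4 * _) ≤ (beta G (pull (ZMod p) (aa G H)) Set.univ ∅ (d + 1) : ℝ) -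
    (beta G (pull (ZMod p) (aa G H)) A ∅ (d + 1) : ℝ) at f1
  change (beta G (pull (ZMod p) (aa G H)) Set.univ ∅ (d + 2) : ℝ) -
    (beta G (pull (ZMod p) (aa G H)) A ∅ (d + 2) : ℝ) ≤ δ / 4 * _ at f2
  change _ ≤ (finrank (ZMod p) (Pool.Agent.W907.SG.ZZ G (pull (ZMod p) (aa G H)) A ∅ (d + 1)) : ℝ)
    at e1
  rw [← e1', ← hYc] at e1
  rw [e1'', Nat.cast_zero, sub_zero, ← hYc] at f2
  rw [← hYc] at f1
  have f3 : (beta G (pull ℝ (aa G H)) Set.univ ∅ (d + 1) : ℝ) ≤ δ / 4 * Yc := by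
    have h5 : (m : ℝ) * beta G (pull ℝ (aa G H)) Set.univ ∅ (d + 1) ≤ Yc := by
      rw [hYc]; exact_mod_cast e3
    have h6 : 1 ≤ m * (δ / 4) := by
      rw [div_lt_iff₀ hδ0] at hmm
      linarith
    have h7 : (beta G (pull ℝ (aa G H)) Set.univ ∅ (d + 1) : ℝ) ≤ Yc / m := by
      rw [le_div_iff₀ hm0]; linarith
    refine h7.trans ?_
    rw [div_le_iff₀ hm0]
    nlinarith
  -- ranks
  subst hH
  obtain ⟨-, -, h8⟩ := hP3 _ ((davis G).quot (K i)) p d
  rw [hP4 V (ZMod p) G (K i) (d + 1) h2, hP4 V (ZMod p) G (K i) (d + 2) h2,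
    hP4 V ℝ G (K i) (d + 1) two_ne_zero] at h8
  have h9 := (Int.cast_le (R := ℝ)).2 h8
  push_cast at h9
  rw [hcard] at hYc
  have h10 : c * (K i).index = ((1 / 2) ^ (Z.U ∪ Z.s).card - δ) * Yc := by
    rw [hδ, hYc]
    field_simp
    ring
  rw [h10]
  linarith

end growth

theorem mainW3 (hP2 : P2G) (hP3 : P3A) (hP3T : P3T) (hP4 : P4B) (hR : P4R) (hA : P4A) (hP5A : P5A)
    (hP5B : P5B) {d : ℕ} {V : Type} [Fintype V] [LinearOrder V] {G : SimpleGraph V} {A : Set V}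
    (hM : MidP G A) (κ : V → Fin (d + 1)) (hκ : ∀ u ∈ A, ∀ v ∈ A, G.Adj u v → κ u ≠ κ v)
    (hL : ∀ i, L2Van G i)
    (p : ℕ) [Fact p.Prime] (hp : p ≠ 2) (Z : DblW (ZMod p) G d) (hZ : ∀ v b, Z.j v b ∈ A) :
    ResFin (th G).ker ∧
    (davis G).toFree.DetL2Acyclic ∧
    ((davis G).prod ((davis G).prod (davis G))).toFree.DetL2Acyclic ∧
    ((davis G).prod ((davis G).prod (davis G))).toFree.l2torsion = 0 ∧
    ∀ (K : ℕ → Subgroup (th G).ker) [∀ i, (K i).Normal], (∀ i, (K i).FiniteIndex) → Antitone K →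
      ⨅ i, K i = ⊥ → ∀ c : ℝ, 0 < c → c < 2 ^ Fintype.card V / 2 ^ (Z.U ∪ Z.s).card → ∀ᶠ i in atTop, c ^ 3 * Real.log p ≤
        Real.log ((((davis G).prod ((davis G).prod (davis G))).quot
          ((K i).prod ((K i).prod (K i)))).torsOrder (3 * d + 1)) / ((K i).prod ((K i).prod (K i))).index := by
  have hres : ResFin (th G).ker := hR V G
  have hac : (davis G).toFree.DetL2Acyclic :=
    hA V G fun i => hL i
  have hac2 := hP5A _ _ (davis G) (davis G) hres hres hac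
  have hac3 := hP5A _ _ (davis G) ((davis G).prod (davis G)) hres (resFin_prod hres hres) hac
  refine ⟨hres, hac, hac3, hP5B _ _ _ _ hac hac2 hac3, ?_⟩
  intro K _ hf ha hi c hc0 hc
  filter_upwards [growthW hP2 hP3 hP4 hM κ hκ hL p hp Z hZ K hf ha hi c hc] with i h1
  have : Finite ((th G).ker ⧸ K i) := @Subgroup.finite_quotient_of_finiteIndex _ _ _ (hf i)
  let _ : Fintype ((th G).ker ⧸ K i) := Fintype.ofFinite _
  have h2 := h1
  have h3 := hP3T _ (davis G) (K i) p d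
  obtain ⟨t, ht⟩ : ∃ t, t = ((davis G).quot (K i)).tp p d := ⟨_, rfl⟩
  obtain ⟨T, hT⟩ : ∃ T, T = (((davis G).prod ((davis G).prod (davis G))).quot
          ((K i).prod ((K i).prod (K i)))).torsOrder (3 * d + 1) := ⟨_, rfl⟩
  rw [← ht] at h2 h3
  rw [← hT] at h3 ⊢
  have hp1 : (1 : ℝ) < p := by exact_mod_cast (Fact.out : p.Prime).one_lt
  have hlog : 0 ≤ Real.log p := Real.log_nonneg hp1.le
  have hidx : (0 : ℝ) < (K i).index := by
    exact_mod_cast Nat.pos_of_ne_zero (hf i).index_ne_zero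
  rw [index3, Nat.cast_pow, le_div_iff₀ (by positivity)]
  calc c ^ 3 * Real.log p * ((K i).index : ℝ) ^ 3 = (c * (K i).index) ^ 3 * Real.log p := by ring
    _ ≤ (t : ℝ) ^ 3 * Real.log p := by
        refine mul_le_mul_of_nonneg_right (pow_le_pow_left₀ (by positivity) h2 3) hlog
    _ = Real.log ((p : ℝ) ^ (t ^ 3)) := by rw [Real.log_pow]; push_cast; ring
    _ ≤ Real.log T := by
        refine Real.log_le_log (by positivity) ?_
        exact_mod_cast h3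

/-- the subdivision, with the doubled cycle -/
theorem buildW {F : Type} [Field F] {d N : ℕ} (H : SimpleGraph (Fin N)) (hd : 1 ≤ d)
    (hS : HSph (2 * d + 1) H) (hS2 : HSph2 (2 * d + 1) H) (Z : DblW F H d)
    (c : Fin Z.n → Fin (d + 1)) (hcl : ∀ v w a b, Z.j v a = Z.j w b → c v = c w)
    (hc : ∀ v w a b, H.Adj (Z.j v a) (Z.j w b) → c v ≠ c w) :
    ∃ (m : ℕ) (S : SimpleGraph (Fin m)) (A : Set (Fin m)) (κ : Fin m → Fin (d + 1)) (Z' : DblW F S d),
      Sub H S ∧ HSph (2 * d + 1) S ∧ HSph2 (2 * d + 1) S ∧ MidP S A ∧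
      (∀ u ∈ A, ∀ v ∈ A, S.Adj u v → κ u ≠ κ v) ∧ (∀ i, L2Van S i) ∧
      (∀ v b, Z'.j v b ∈ A) ∧ (Z'.U ∪ Z'.s).card = (Z.U ∪ Z.s).card := by
  classical
  obtain ⟨B, hB⟩ : ∃ B : Set (Fin N), B = {x | ∃ v b, x = Z.j v b} := ⟨_, rfl⟩
  have hmemB : ∀ v b, Z.j v b ∈ B := by
    intro v b
    rw [hB]
    exact ⟨v, b, rfl⟩
  obtain ⟨c', hc'⟩ : ∃ c' : Fin N → Fin (d + 1), ∀ v b, c' (Z.j v b) = c v := by
    refine ⟨fun x => if h : ∃ v b, x = Z.j v b then c h.choose else 0, fun v b => ?_⟩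
    have h1 : ∃ v' b', Z.j v b = Z.j v' b' := ⟨v, b, rfl⟩
    dsimp only
    rw [dif_pos h1]
    obtain ⟨b', hb'⟩ := h1.choose_spec
    exact (hcl _ _ _ _ hb').symm
  obtain ⟨m, h, S, h1, h2, κ, A, h3, h4, h5⟩ := rel3A (c2 c1) H hd
    (fun m S hm => (emb_of_hsph2 (sub_hsph2 hm hS2) (by omega)).obs) B c' (by
      intro u hu v hv huv
      rw [hB] at hu hv
      obtain ⟨u', a, rfl⟩ := hu
      obtain ⟨v', b, rfl⟩ := hv
      rw [hc', hc']
      exact hc u' v' a b huv)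
  have hSS := h1.hsph e1 hS
  have hLV : ∀ (C : Set (Fin m)) (i : ℕ), d < i → LV (S.induce C) i := fun C i hi =>
    her (d + 1) S (fun x => (κ x : ℕ)) A (Finset.range (d + 1)) (Finset.card_range _)
      (fun x => Finset.mem_range.2 (κ x).2) h3 h4 C i hi
  have hL : ∀ i, L2Van S i := by
    intro i
    refine singer_of_above hSS (fun i hi => ?_) i (by omega)
    have h6 := hLV Set.univ i (by omega)
    rw [lv_univ] at h6
    exact h6 _ _
  have hM : MidP S A := by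
    intro v hv
    obtain ⟨s, hs, t, ht, hst, h6, h7, h8, -, -, h9⟩ := h3.mid v hv
    exact ⟨s, hs, t, ht, hst, h6, h7, h8, fun u hu hus hut => ⟨(h9 u hu hus hut).1, (h9 u hu hus hut).2.1⟩⟩
  have hkey : ∀ v w a b, S.Adj (Fin.castLE h (Z.j v a)) (Fin.castLE h (Z.j w b)) ↔ H.Adj (Z.j v a) (Z.j w b) :=
    fun v w a b => h2 _ (hmemB v a) _ (hmemB w b)
  have hinj : ∀ x y : Fin N, Fin.castLE h x = Fin.castLE h y → x = y := fun x y hxy => by
    have := congrArg Fin.val hxy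
    rw [Fin.val_castLE, Fin.val_castLE] at this
    exact Fin.ext this
  refine ⟨m, S, A, κ, ⟨Z.n, Z.z, fun v b => Fin.castLE h (Z.j v b), Z.U, Z.s, Z.A, Z.z_card, Z.z_cyc, ?_, ?_, ?_,
    Z.z_s, Z.A_s, ?_, ?_⟩, h1, hSS, sub_hsph2 h1 hS2, hM, ?_, hL, ?_, rfl⟩
  · intro v hv
    rw [Z.j_U v hv]
  · intro v hv
    obtain ⟨h6, h7⟩ := Z.j_adj v hv
    exact ⟨fun h8 => h6 (hinj _ _ h8), fun h8 => h7 ((hkey _ _ _ _).1 h8)⟩
  · intro σ hσ v hv w hw hvw a b
    exact (hkey _ _ _ _).2 (Z.clique σ hσ v hv w hw hvw a b)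
  · intro σ B hσ hB he
    refine Z.uniq σ B hσ hB ?_
    have h6 : Function.Injective (Fin.castLE h) := fun x y => hinj x y
    have h7 : (σ.image fun v => Z.j v (decide (v ∉ B))).image (Fin.castLE h) =
        (Z.s.image fun v => Z.j v (decide (v ∉ Z.A))).image (Fin.castLE h) := by
      rw [Finset.image_image, Finset.image_image]
      exact he
    exact Finset.image_injective h6 h7
  · intro v hv w hw hvw
    exact (hkey _ _ _ _).2 (Z.cliqueU v hv w hw hvw)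
  · intro u hu v hv huv he
    exact h3.col u hu v hv huv (congrArg Fin.val he)
  · intro v b
    exact h5 _

/-- The main theorem. `H` is a flag homology sphere of dimension `2 d` (over the reals and over the field with two
elements), `Z` is a doubled mod `p` cycle of dimension `d` in `H`, the vertices of which are properly coloured by
`d + 1` colours. -/
def Main3W : Prop := ∀ (d N : ℕ) (H : SimpleGraph (Fin N)), 1 ≤ d → HSph (2 * d + 1) H → HSph2 (2 * d + 1) H →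
    ∀ (p : ℕ) [Fact p.Prime], p ≠ 2 → ∀ (Z : DblW (ZMod p) H d) (c : Fin Z.n → Fin (d + 1)),
    (∀ v w a b, Z.j v a = Z.j w b → c v = c w) → (∀ v w a b, H.Adj (Z.j v a) (Z.j w b) → c v ≠ c w) →
    ∃ (n : ℕ) (S : SimpleGraph (Fin n)), Sub H S ∧ HSph (2 * d + 1) S ∧ HSph2 (2 * d + 1) S ∧ (∀ i, L2Van S i) ∧
    ResFin (th S).ker ∧
    (davis S).toFree.DetL2Acyclic ∧
    ((davis S).prod ((davis S).prod (davis S))).toFree.DetL2Acyclic ∧
    ((davis S).prod ((davis S).prod (davis S))).toFree.l2torsion = 0 ∧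
    ∀ (K : ℕ → Subgroup (th S).ker) [∀ i, (K i).Normal], (∀ i, (K i).FiniteIndex) → Antitone K →
      ⨅ i, K i = ⊥ → ∀ c : ℝ, 0 < c → c < 2 ^ n / 2 ^ (Z.U ∪ Z.s).card → ∀ᶠ i in atTop, c ^ 3 * Real.log p ≤
        Real.log ((((davis S).prod ((davis S).prod (davis S))).quot
          ((K i).prod ((K i).prod (K i)))).torsOrder (3 * d + 1)) / ((K i).prod ((K i).prod (K i))).index

theorem mainW : Main3W := by
  intro d N H hd hS hS2 p _ hp Z c hcl hc
  obtain ⟨m, S, A, κ, Z', h1, h2, h3, h4, h5, h6, h7, h8⟩ := buildW H hd hS hS2 Z c hcl hc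
  obtain ⟨e1, e2, e3, e4, e5⟩ := mainW3 Pool.Agent.V8H96.LT.p2g Pool.Agent.V8H74.LT.p3a Pool.Agent.V8H42.LT.p3t
    Pool.Agent.V8H54.LT.p4b Pool.Agent.V8H74.LT.p4r Pool.Agent.V8H86.LT.p4a Pool.Agent.V8H26.LT.p5a
    Pool.Agent.V8H64.LT.p5b h4 κ h5 h6 p hp Z' h7
  refine ⟨m, S, h1, h2, h3, h6, e1, e2, e3, e4, ?_⟩
  rw [Fintype.card_fin, h8] at e5
  exact e5

end Pool.Agent.V8H3.LT.NI
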