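import Pool.Agent.V8H3.LT.Lift

/-!
# Project LT: the growth of the number of top dimensional cycles (P1)
-/

set_option autoImplicit false
set_option linter.unusedSectionVars false

noncomputable section

namespace Pool.Agent.V8H3.LT

open Module Pool.Agent.W907.SG Pool.Agent.W461.SGN Pool.Agent.W397.SG Pool.Agent.N496.LT Pool.Agent.Y132.SI

section la2

variable {F I M : Type} [Field F] [Fintype I] [AddCommGroup M] [Module F M] [FiniteDimensional F M]

theorem finrank_pi_le (P : Submodule F (I → M)) (p : I → Submodule F M) (h : ∀ c ∈ P, ∀ i, c i ∈ p i) :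
    finrank F P ≤ ∑ i, finrank F (p i) := by
  rw [← Module.finrank_pi_fintype]
  let Φ : P →ₗ[F] (∀ i, p i) :=
    { toFun := fun c i => ⟨c.1 i, h c.1 c.2 i⟩
      map_add' := fun c c' => rfl
      map_smul' := fun r c => rfl }
  refine LinearMap.finrank_le_finrank_of_injective (f := Φ) ?_
  intro c c' hcc
  apply Subtype.ext
  funext i
  exact congrArg Subtype.val (congrFun hcc i)

theorem finrank_pi_ge (P : Submodule F (I → M)) (p : I → Submodule F M) (h : ∀ c : I → M, (∀ i, c i ∈ p i) → c ∈ P) :
    ∑ i, finrank F (p i) ≤ finrank F P := by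
  rw [← Module.finrank_pi_fintype]
  let Φ : (∀ i, p i) →ₗ[F] P :=
    { toFun := fun c => ⟨fun i => (c i).1, h _ fun i => (c i).2⟩
      map_add' := fun c c' => rfl
      map_smul' := fun r c => rfl }
  refine LinearMap.finrank_le_finrank_of_injective (f := Φ) ?_
  intro c c' hcc
  funext i
  apply Subtype.ext
  exact congrFun (congrArg Subtype.val hcc) i

end la2

variable {V F : Type} [Fintype V] [LinearOrder V] [Field F] {G : SimpleGraph V} {d : ℕ} (X : Dbl F G d)
  {Y : Type} [Fintype Y] (a : V → Y → Y)

theorem mem_ET {T : Finset V} {f : Y → F} : f ∈ ET F a T ↔ ∀ t ∈ T, ∀ x, f (a t x) = - f x := Iff.rfl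

/-- families of antiinvariant functions with sum zero -/
def KD (D : Finset (Fin X.n)) : Submodule F (Finset (Fin X.n) → (Y → F)) where
  carrier := {y | (∀ A, ¬ A ⊆ D → y A = 0) ∧ (∀ A, y A ∈ ET F a (L X D A)) ∧ ∑ A ∈ D.powerset, y A = 0}
  add_mem' := by
    rintro y y' ⟨h1, h2, h3⟩ ⟨h1', h2', h3'⟩
    refine ⟨fun A hA => ?_, fun A => ?_, ?_⟩
    · rw [Pi.add_apply, h1 A hA, h1' A hA, add_zero]
    · exact add_mem (h2 A) (h2' A)
    · simp only [Pi.add_apply]
      rw [Finset.sum_add_distrib, h3, h3', add_zero]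
  zero_mem' := ⟨fun _ _ => rfl, fun _ => zero_mem _, by simp⟩
  smul_mem' := by
    rintro r y ⟨h1, h2, h3⟩
    refine ⟨fun A hA => ?_, fun A => ?_, ?_⟩
    · rw [Pi.smul_apply, h1 A hA, smul_zero]
    · exact Submodule.smul_mem _ r (h2 A)
    · simp only [Pi.smul_apply]
      rw [← Finset.smul_sum, h3, smul_zero]

theorem mem_KD {D : Finset (Fin X.n)} {y : Finset (Fin X.n) → (Y → F)} : y ∈ KD X a D ↔
    (∀ A, ¬ A ⊆ D → y A = 0) ∧ (∀ A, y A ∈ ET F a (L X D A)) ∧ ∑ A ∈ D.powerset, y A = 0 := Iff.rfl

theorem L_insert_set (D A : Finset (Fin X.n)) (v : Fin X.n) : L X (insert v D) A = insert (lv X A v) (L X D A) :=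
  L_insert X D A v

theorem KD_small (N : ℕ) (D : Finset (Fin X.n))
    (hK : ∀ v ∈ D, ∀ K : Submodule F (Y → F), (∀ f ∈ K, ∀ t, f (a (X.j v true) t) = - f t) →
      (∀ f ∈ K, ∀ t, f (a (X.j v false) t) = - f t) → N * finrank F K ≤ Fintype.card Y) :
    N * finrank F (KD X a D) ≤ 2 * 2 ^ D.card * Fintype.card Y := by
  classical
  induction D using Finset.induction_on with
  | empty =>
    have h : KD X a ∅ = ⊥ := by
      rw [eq_bot_iff]
      rintro y ⟨h1, h2, h3⟩
      rw [Submodule.mem_bot]
      funext A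
      by_cases hA : A ⊆ ∅
      · have e := Finset.subset_empty.1 hA
        subst e
        rw [Finset.powerset_empty, Finset.sum_singleton] at h3
        exact h3
      · exact h1 A hA
    rw [h, finrank_bot]
    simp
  | insert v D hv ih =>
    have ih' := ih fun w hw => hK w (Finset.mem_insert_of_mem hw)
    let g : (Finset (Fin X.n) → (Y → F)) →ₗ[F] (Finset (Fin X.n) → (Y → F)) :=
      { toFun := fun y A => if A ⊆ D then y A + y (insert v A) else 0
        map_add' := by
          intro y y'
          funext A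
          simp only [Pi.add_apply]
          split_ifs
          · abel
          · rw [add_zero]
        map_smul' := by
          intro r y
          funext A
          simp only [Pi.smul_apply, RingHom.id_apply]
          split_ifs
          · rw [smul_add]
          · rw [smul_zero] }
    have hg : ∀ y A, g y A = if A ⊆ D then y A + y (insert v A) else 0 := fun y A => rfl
    have h1 := finrank_map_add g (KD X a (insert v D))
    have h2 : (KD X a (insert v D)).map g ≤ KD X a D := by
      rintro _ ⟨y, hy, rfl⟩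
      obtain ⟨hy1, hy2, hy3⟩ := hy
      refine ⟨fun A hA => ?_, fun A => ?_, ?_⟩
      · rw [hg, if_neg hA]
      · rw [hg]
        split_ifs with hA
        · refine add_mem ?_ ?_
          · intro t ht x
            refine hy2 A t ?_ x
            rw [L_insert]
            exact Finset.mem_insert_of_mem ht
          · intro t ht x
            refine hy2 (insert v A) t ?_ x
            rw [L_insert, L_insert_of X D A v hv]
            exact Finset.mem_insert_of_mem ht
        · exact zero_mem _
      · rw [Finset.sum_powerset_insert hv, ← Finset.sum_add_distrib] at hy3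
        rw [← hy3]
        refine Finset.sum_congr rfl fun A hA => ?_
        rw [hg, if_pos (Finset.mem_powerset.1 hA)]
    have h3 := Submodule.finrank_mono h2
    -- the common antiinvariants
    obtain ⟨K, hKm⟩ : ∃ K : Submodule F (Y → F), ∀ f, f ∈ K ↔ ((∀ t, f (a (X.j v true) t) = - f t) ∧
        ∀ t, f (a (X.j v false) t) = - f t) :=
      ⟨{ carrier := {f | (∀ t, f (a (X.j v true) t) = - f t) ∧ ∀ t, f (a (X.j v false) t) = - f t}
         add_mem' := by
          rintro f f' ⟨e1, e2⟩ ⟨e3, e4⟩
          refine ⟨fun t => ?_, fun t => ?_⟩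
          · rw [Pi.add_apply, Pi.add_apply, e1, e3]; ring
          · rw [Pi.add_apply, Pi.add_apply, e2, e4]; ring
         zero_mem' := ⟨fun _ => by simp, fun _ => by simp⟩
         smul_mem' := by
          rintro r f ⟨e1, e2⟩
          refine ⟨fun t => ?_, fun t => ?_⟩
          · rw [Pi.smul_apply, Pi.smul_apply, e1, smul_neg]
          · rw [Pi.smul_apply, Pi.smul_apply, e2, smul_neg] }, fun f => Iff.rfl⟩
    have h4 := hK v (Finset.mem_insert_self _ _) K (fun f hf => ((hKm f).1 hf).1) (fun f hf => ((hKm f).1 hf).2)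
    obtain ⟨p, hp⟩ : ∃ p : Finset (Fin X.n) → Submodule F (Y → F), p = fun A => if A ⊆ insert v D then K else ⊥ :=
      ⟨_, rfl⟩
    have h5 : finrank F (KD X a (insert v D) ⊓ LinearMap.ker g : Submodule F (Finset (Fin X.n) → (Y → F))) ≤
        ∑ A, finrank F (p A) := by
      refine finrank_pi_le _ p ?_
      rintro y ⟨⟨hy1, hy2, hy3⟩, hy4⟩ A
      rw [hp]
      simp only
      split_ifs with hA
      · have hker : ∀ B, B ⊆ D → y B = - y (insert v B) := by
          intro B hB
          have h6 := congrFun (LinearMap.mem_ker.1 hy4) B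
          rw [hg, if_pos hB] at h6
          exact eq_neg_of_add_eq_zero_left h6
        have ht : ∀ B, v ∉ B → B ⊆ D → ∀ t, y B (a (X.j v true) t) = - y B t := by
          intro B hvB hB t
          refine hy2 B _ ?_ t
          rw [L_insert]
          refine Finset.mem_insert.2 (Or.inl ?_)
          unfold lv
          simp [hvB]
        have hf : ∀ B, v ∈ B → ∀ t, y B (a (X.j v false) t) = - y B t := by
          intro B hvB t
          refine hy2 B _ ?_ t
          rw [L_insert]
          refine Finset.mem_insert.2 (Or.inl ?_)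
          unfold lv
          simp [hvB]
        rw [hKm]
        by_cases hvA : v ∈ A
        · have hAD : A.erase v ⊆ D := by
            intro w hw
            rcases Finset.mem_insert.1 (hA (Finset.mem_of_mem_erase hw)) with h | h
            · exact absurd h (Finset.ne_of_mem_erase hw)
            · exact h
          have h6 : y A = - y (A.erase v) := by
            have h7 := hker _ hAD
            rw [Finset.insert_erase hvA] at h7
            rw [h7, neg_neg]
          refine ⟨fun t => ?_, hf A hvA⟩
          rw [h6, Pi.neg_apply, Pi.neg_apply, ht _ (Finset.notMem_erase _ _) hAD]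
        · have hAD : A ⊆ D := by
            intro w hw
            rcases Finset.mem_insert.1 (hA hw) with h | h
            · exact absurd (h ▸ hw) hvA
            · exact h
          refine ⟨ht A hvA hAD, fun t => ?_⟩
          rw [hker A hAD, Pi.neg_apply, Pi.neg_apply, hf _ (Finset.mem_insert_self _ _)]
      · rw [Submodule.mem_bot]
        exact hy1 A hA
    have h6 : ∑ A, finrank F (p A) = 2 ^ (insert v D).card * finrank F K := by
      rw [← Finset.card_powerset, ← smul_eq_mul, ← Finset.sum_const,
        ← Finset.sum_subset (Finset.subset_univ (insert v D).powerset)]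
      · refine Finset.sum_congr rfl fun A hA => ?_
        have e : p A = K := by
          rw [hp]
          exact if_pos (Finset.mem_powerset.1 hA)
        rw [e]
      · intro A _ hA
        have e : p A = ⊥ := by
          rw [hp]
          exact if_neg (fun h => hA (Finset.mem_powerset.2 h))
        rw [e, finrank_bot]
    rw [Finset.card_insert_of_notMem hv] at h6 ⊢
    have h7 : N * finrank F (KD X a (insert v D)) ≤ N * finrank F (KD X a D) + 2 ^ (D.card + 1) * (N * finrank F K) := by
      rw [h1]
      calc N * (finrank F ((KD X a (insert v D)).map g) + finrank F (KD X a (insert v D) ⊓ LinearMap.ker g :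
            Submodule F (Finset (Fin X.n) → (Y → F))))
          ≤ N * (finrank F (KD X a D) + 2 ^ (D.card + 1) * finrank F K) :=
            Nat.mul_le_mul_left N (add_le_add h3 (h5.trans h6.le))
        _ = _ := by ring
    calc N * finrank F (KD X a (insert v D))
        ≤ N * finrank F (KD X a D) + 2 ^ (D.card + 1) * (N * finrank F K) := h7
      _ ≤ 2 * 2 ^ D.card * Fintype.card Y + 2 ^ (D.card + 1) * Fintype.card Y :=
          add_le_add ih' (Nat.mul_le_mul_left _ h4)
      _ = _ := by ring

/-- the families over a simplex -/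
def ES (σ : Finset (Fin X.n)) : Submodule F (Finset (Fin X.n) → (Y → F)) where
  carrier := {y | (∀ A, ¬ A ⊆ σ \ X.U → y A = 0) ∧ ∀ A, y A ∈ ET F a (L X σ A)}
  add_mem' := by
    rintro y y' ⟨h1, h2⟩ ⟨h1', h2'⟩
    refine ⟨fun A hA => ?_, fun A => ?_⟩
    · rw [Pi.add_apply, h1 A hA, h1' A hA, add_zero]
    · exact add_mem (h2 A) (h2' A)
  zero_mem' := ⟨fun _ _ => rfl, fun _ => zero_mem _⟩
  smul_mem' := by
    rintro r y ⟨h1, h2⟩
    refine ⟨fun A hA => ?_, fun A => ?_⟩
    · rw [Pi.smul_apply, h1 A hA, smul_zero]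
    · exact Submodule.smul_mem _ r (h2 A)

/-- the sum map -/
def sm (D : Finset (Fin X.n)) : (Finset (Fin X.n) → (Y → F)) →ₗ[F] (Y → F) where
  toFun y := ∑ A ∈ D.powerset, y A
  map_add' y y' := by
    simp only [Pi.add_apply]
    exact Finset.sum_add_distrib
  map_smul' r y := by
    simp only [Pi.smul_apply, RingHom.id_apply]
    exact Finset.smul_sum.symm

theorem sm_apply (D : Finset (Fin X.n)) (y : Finset (Fin X.n) → (Y → F)) : sm X D y = ∑ A ∈ D.powerset, y A := rfl

theorem L_subset {σ τ A : Finset (Fin X.n)} (h : σ ⊆ τ) : L X σ A ⊆ L X τ A := Finset.image_subset_image h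

theorem clique_L {σ A : Finset (Fin X.n)} (h : X.z σ ≠ 0) : G.IsClique ((L X σ A : Finset V) : Set V) := by
  intro s hs t ht hst
  unfold L at hs ht
  rw [Finset.mem_coe, Finset.mem_image] at hs ht
  obtain ⟨v, hv, rfl⟩ := hs
  obtain ⟨w, hw, rfl⟩ := ht
  refine X.clique σ h v hv w hw ?_ _ _
  rintro rfl
  exact hst rfl

theorem lv_U (A : Finset (Fin X.n)) {v : Fin X.n} (hv : v ∈ X.U) : lv X A v = X.j v true := by
  unfold lv
  by_cases h : v ∈ A
  · simp [h, X.j_U v hv]
  · simp [h]

theorem L_U {σ : Finset (Fin X.n)} (h : σ ⊆ X.U) (A B : Finset (Fin X.n)) : L X σ A = L X σ B := by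
  unfold L
  refine Finset.image_congr fun v hv => ?_
  show lv X A v = lv X B v
  rw [lv_U X A (h hv), lv_U X B (h hv)]

theorem clique_U {σ A : Finset (Fin X.n)} (h : σ ⊆ X.U) : G.IsClique ((L X σ A : Finset V) : Set V) := by
  intro s hs t ht hst
  unfold L at hs ht
  rw [Finset.mem_coe, Finset.mem_image] at hs ht
  obtain ⟨v, hv, rfl⟩ := hs
  obtain ⟨w, hw, rfl⟩ := ht
  rw [lv_U X A (h hv), lv_U X A (h hw)]
  refine X.cliqueU v (h hv) w (h hw) ?_
  rintro rfl
  exact hst rfl

section dims

variable (hdim : ∀ T : Finset V, G.IsClique (T : Set V) → finrank F (ET F a T) * 2 ^ T.card = Fintype.card Y)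

include hdim

theorem codim_im {σ : Finset (Fin X.n)} (hσ : X.z σ ≠ 0) :
    finrank F (ET F a (L X (σ ∩ X.U) ∅)) ≤ finrank F ((ES X a σ).map (sm X (σ \ X.U))) +
      finrank F (KD X a (σ \ X.U)) := by
  classical
  have h1 := finrank_map_add (sm (F := F) (Y := Y) X (σ \ X.U)) (ES X a σ)
  have h2 : (ES X a σ ⊓ LinearMap.ker (sm X (σ \ X.U)) : Submodule F (Finset (Fin X.n) → (Y → F))) ≤
      KD X a (σ \ X.U) := by
    rintro y ⟨⟨hy1, hy2⟩, hy3⟩
    refine ⟨hy1, fun A t ht x => hy2 A t (L_subset X Finset.sdiff_subset ht) x, ?_⟩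
    exact LinearMap.mem_ker.1 hy3
  have h3 := Submodule.finrank_mono h2
  obtain ⟨p, hp⟩ : ∃ p : Finset (Fin X.n) → Submodule F (Y → F),
      p = fun A => if A ⊆ σ \ X.U then ET F a (L X σ A) else ⊥ := ⟨_, rfl⟩
  have h4 : ∑ A, finrank F (p A) ≤ finrank F (ES X a σ) := by
    refine finrank_pi_ge _ p fun c hc => ⟨fun A hA => ?_, fun A => ?_⟩
    · have h5 := hc A
      rw [hp] at h5
      simp only at h5
      rw [if_neg hA, Submodule.mem_bot] at h5
      exact h5
    · have h5 := hc A
      rw [hp] at h5
      simp only at h5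
      split_ifs at h5
      · exact h5
      · rw [Submodule.mem_bot] at h5
        rw [h5]
        exact zero_mem _
  have h5 : (∑ A, finrank F (p A)) * 2 ^ σ.card = 2 ^ (σ \ X.U).card * Fintype.card Y := by
    rw [← Finset.card_powerset (σ \ X.U), ← smul_eq_mul (Finset.card _) (Fintype.card Y), ← Finset.sum_const,
      ← Finset.sum_subset (Finset.subset_univ (σ \ X.U).powerset), Finset.sum_mul]
    · refine Finset.sum_congr rfl fun A hA => ?_
      have e : p A = ET F a (L X σ A) := by
        rw [hp]
        exact if_pos (Finset.mem_powerset.1 hA)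
      rw [e, ← card_L X σ A]
      exact hdim _ (clique_L X hσ)
    · intro A _ hA
      have e : p A = ⊥ := by
        rw [hp]
        exact if_neg (fun h => hA (Finset.mem_powerset.2 h))
      rw [e, finrank_bot]
  have h6 := hdim _ (clique_U X (A := ∅) (Finset.inter_subset_right : σ ∩ X.U ⊆ X.U))
  rw [card_L] at h6
  have h7 : (σ ∩ X.U).card + (σ \ X.U).card = σ.card := Finset.card_inter_add_card_sdiff σ X.U
  have h8 : finrank F (ET F a (L X (σ ∩ X.U) ∅)) * 2 ^ σ.card = (∑ A, finrank F (p A)) * 2 ^ σ.card := by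
    rw [h5, ← h7, pow_add, ← mul_assoc, h6, mul_comm]
  have h9 := Nat.eq_of_mul_eq_mul_right (by positivity) h8
  omega

/-- the good elements -/
theorem exists_M (k : ℕ) (hk : ∀ D : Finset (Fin X.n), Disjoint D X.U → finrank F (KD X a D) ≤ k) :
    ∃ M : Submodule F (Y → F), (∀ m ∈ M, ∀ σ, X.z σ ≠ 0 → ∃ y ∈ ES X a σ, sm X (σ \ X.U) y = m) ∧
      finrank F (ET F a (L X X.U ∅)) ≤ finrank F M + 2 ^ X.n * k := by
  classical
  obtain ⟨M, h1, h2, h3⟩ := codim_inf (F := F) (E := Y → F) (ι := Finset (Fin X.n))
    (fun σ => ((if X.z σ ≠ 0 then (ES X a σ).map (sm X (σ \ X.U)) else ⊤ : Submodule F (Y → F))).mkQ)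
    (ET F a (L X X.U ∅)) (fun _ => k) (by
      intro σ
      by_cases hσ : X.z σ ≠ 0
      · rw [if_pos hσ]
        have h1 := codim_im X a hdim hσ
        have h2 := hk (σ \ X.U) Finset.sdiff_disjoint
        have h3 : (ES X a σ).map (sm X (σ \ X.U)) ≤ ET F a (L X (σ ∩ X.U) ∅) := by
          rintro _ ⟨y, hy, rfl⟩
          rw [sm_apply]
          refine sum_mem fun A _ => ?_
          intro t ht x
          refine hy.2 A t ?_ x
          rw [L_U X Finset.inter_subset_right ∅ A] at ht
          exact L_subset X Finset.inter_subset_left ht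
        have h4 : (ET F a (L X X.U ∅)) ≤ ET F a (L X (σ ∩ X.U) ∅) := by
          intro f hf t ht x
          exact hf t (L_subset X Finset.inter_subset_right ht) x
        have h5 := Submodule.finrank_mono (Submodule.map_mono (f := ((ES X a σ).map (sm X (σ \ X.U))).mkQ) h4)
        have h6 := finrank_map_add ((ES X a σ).map (sm X (σ \ X.U))).mkQ (ET F a (L X (σ ∩ X.U) ∅))
        rw [Submodule.ker_mkQ, inf_eq_right.2 h3] at h6
        omega
      · rw [if_neg hσ]
        have h7 : Submodule.map (⊤ : Submodule F (Y → F)).mkQ (ET F a (L X X.U ∅)) = ⊥ := by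
          rw [eq_bot_iff]
          rintro _ ⟨y, _, rfl⟩
          rw [Submodule.mem_bot, Submodule.mkQ_apply, Submodule.Quotient.mk_eq_zero]
          trivial
        rw [h7, finrank_bot]
        exact Nat.zero_le _) Finset.univ
  refine ⟨M, fun m hm σ hσ => ?_, ?_⟩
  · have h4 := h2 σ (Finset.mem_univ _) m hm
    rw [if_pos hσ, Submodule.mkQ_apply, Submodule.Quotient.mk_eq_zero] at h4
    obtain ⟨y, hy, he⟩ := h4
    exact ⟨y, hy, he⟩
  · rw [Finset.sum_const, Finset.card_univ, Fintype.card_finset, Fintype.card_fin, smul_eq_mul] at h3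
    exact h3

end dims

end Pool.Agent.V8H3.LT
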