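import Pool.Agent.V8H3.LT.P1

/-!
# Project LT: the growth of the number of top dimensional cycles (P1), second part
-/

set_option autoImplicit false
set_option linter.unusedSectionVars false

noncomputable section

namespace Pool.Agent.V8H3.LT

open Module Pool.Agent.W907.SG Pool.Agent.W461.SGN Pool.Agent.W397.SG Pool.Agent.N496.LT Pool.Agent.Y132.SI

variable {V F : Type} [Fintype V] [LinearOrder V] [Field F] {G : SimpleGraph V} {d : ℕ} (X : Dbl F G d)
  {Y : Type} [Fintype Y] (a : V → Y → Y)

/-- the families whose sums over the lifts are proportional to the cycle -/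
def QQ (M : Submodule F (Y → F)) : Submodule F (Finset (Fin X.n) → Finset (Fin X.n) → (Y → F)) where
  carrier := {x | (∀ σ, x σ ∈ ES X a σ) ∧ (∀ σ, X.z σ = 0 → x σ = 0) ∧
    ∃ m ∈ M, ∀ σ, sm X (σ \ X.U) (x σ) = X.z σ • m}
  add_mem' := by
    rintro x x' ⟨h1, h2, m, hm, h3⟩ ⟨h1', h2', m', hm', h3'⟩
    refine ⟨fun σ => add_mem (h1 σ) (h1' σ), fun σ hσ => ?_, m + m', add_mem hm hm', fun σ => ?_⟩
    · rw [Pi.add_apply, h2 σ hσ, h2' σ hσ, add_zero]
    · rw [Pi.add_apply, map_add, h3, h3', smul_add]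
  zero_mem' := ⟨fun σ => zero_mem _, fun σ _ => rfl, 0, zero_mem _, fun σ => by rw [Pi.zero_apply, map_zero, smul_zero]⟩
  smul_mem' := by
    rintro r x ⟨h1, h2, m, hm, h3⟩
    refine ⟨fun σ => Submodule.smul_mem _ r (h1 σ), fun σ hσ => ?_, r • m, Submodule.smul_mem _ r hm, fun σ => ?_⟩
    · rw [Pi.smul_apply, h2 σ hσ, smul_zero]
    · rw [Pi.smul_apply, map_smul, h3, smul_comm]

theorem QQ_ge (M : Submodule F (Y → F))
    (hM : ∀ m ∈ M, ∀ σ, X.z σ ≠ 0 → ∃ y ∈ ES X a σ, sm X (σ \ X.U) y = m) :
    finrank F M ≤ finrank F (QQ X a M) := by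
  classical
  obtain ⟨σ0, hσ0⟩ : ∃ σ, X.z σ ≠ 0 := by
    by_contra h
    push Not at h
    exact X.z_ne (funext h)
  let f : (Finset (Fin X.n) → Finset (Fin X.n) → (Y → F)) →ₗ[F] (Y → F) :=
    (sm X (σ0 \ X.U)).comp (LinearMap.proj σ0)
  have h1 : M ≤ (QQ X a M).map f := by
    intro m hm
    have hm' : (X.z σ0)⁻¹ • m ∈ M := Submodule.smul_mem _ _ hm
    have h2 := hM _ hm'
    choose! y hy1 hy2 using h2
    refine ⟨fun σ => if X.z σ = 0 then 0 else X.z σ • y σ, ⟨fun σ => ?_, fun σ hσ => ?_, _, hm', fun σ => ?_⟩, ?_⟩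
    · simp only
      split_ifs with h
      · exact zero_mem _
      · exact Submodule.smul_mem _ _ (hy1 σ h)
    · exact if_pos hσ
    · simp only
      split_ifs with h
      · rw [map_zero, h, zero_smul]
      · rw [map_smul, hy2 σ h]
    · show sm X (σ0 \ X.U) (if X.z σ0 = 0 then 0 else X.z σ0 • y σ0) = m
      rw [if_neg hσ0, map_smul, hy2 σ0 hσ0, smul_smul, mul_inv_cancel₀ hσ0, one_smul]
  exact (Submodule.finrank_mono h1).trans (Submodule.finrank_map_le f _)

/-- the boundary map over a simplex -/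
def ddL (τ : Finset (Fin X.n)) : (Finset (Fin X.n) → Finset (Fin X.n) → (Y → F)) →ₗ[F]
    (Finset (Fin X.n) → (Y → F)) where
  toFun x A := if A ⊆ τ \ X.U then dd X x τ A else 0
  map_add' := by
    intro x x'
    funext A
    simp only [Pi.add_apply]
    split_ifs with h
    · unfold dd
      rw [← Finset.sum_add_distrib]
      refine Finset.sum_congr rfl fun v _ => ?_
      rw [← smul_add]
      congr 1
      by_cases hv : v ∈ X.U
      · simp only [if_pos hv, Pi.add_apply, add_zero]
      · simp only [if_neg hv, Pi.add_apply]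
        abel
    · rw [add_zero]
  map_smul' := by
    intro r x
    funext A
    simp only [Pi.smul_apply, RingHom.id_apply]
    split_ifs with h
    · unfold dd
      rw [Finset.smul_sum]
      refine Finset.sum_congr rfl fun v _ => ?_
      rw [smul_comm r]
      congr 1
      by_cases hv : v ∈ X.U
      · simp only [if_pos hv, Pi.smul_apply, add_zero]
      · simp only [if_neg hv, Pi.smul_apply, smul_add]
    · rw [smul_zero]

theorem ddL_apply (τ : Finset (Fin X.n)) (x : Finset (Fin X.n) → Finset (Fin X.n) → (Y → F)) (A : Finset (Fin X.n)) :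
    ddL X τ x A = if A ⊆ τ \ X.U then dd X x τ A else 0 := rfl

theorem ddL_mem (M : Submodule F (Y → F)) (τ : Finset (Fin X.n)) : (QQ X a M).map (ddL X τ) ≤ KD X a (τ \ X.U) := by
  classical
  rintro _ ⟨x, ⟨h1, h2, m, hm, h3⟩, rfl⟩
  refine ⟨fun A hA => ?_, fun A => ?_, ?_⟩
  · rw [ddL_apply, if_neg hA]
  · rw [ddL_apply]
    split_ifs with hA
    · unfold dd
      refine sum_mem fun v hv => ?_
      have hv' : v ∉ τ := by simpa using hv
      refine zsmul_mem (add_mem ?_ ?_) _
      · intro t ht y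
        refine (h1 (insert v τ)).2 A t ?_ y
        exact L_subset X (Finset.sdiff_subset.trans (Finset.subset_insert _ _)) ht
      · split_ifs with hU
        · exact zero_mem _
        · intro t ht y
          refine (h1 (insert v τ)).2 (insert v A) t ?_ y
          rw [L_insert, L_insert_of X τ A v hv']
          exact Finset.mem_insert_of_mem (L_subset X Finset.sdiff_subset ht)
    · exact zero_mem _
  · have h4 : ∑ A ∈ (τ \ X.U).powerset, ddL X τ x A = ∑ A ∈ (τ \ X.U).powerset, dd X x τ A :=
      Finset.sum_congr rfl fun A hA => if_pos (Finset.mem_powerset.1 hA)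
    rw [h4]
    unfold dd
    rw [Finset.sum_comm]
    have h5 : ∀ v ∈ τᶜ, (∑ A ∈ (τ \ X.U).powerset, sg v τ • (x (insert v τ) A + if v ∈ X.U then 0 else
        x (insert v τ) (insert v A))) = (sg v τ • X.z (insert v τ)) • m := by
      intro v hv
      have hv' : v ∉ τ := by simpa using hv
      rw [← Finset.smul_sum, Finset.sum_add_distrib, smul_assoc, ← h3, sm_apply]
      congr 1
      by_cases hU : v ∈ X.U
      · rw [Finset.insert_sdiff_of_mem _ hU]
        simp only [if_pos hU]
        rw [Finset.sum_const_zero, add_zero]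
      · rw [Finset.insert_sdiff_of_notMem _ hU,
          Finset.sum_powerset_insert (fun h => hv' (Finset.mem_sdiff.1 h).1)]
        simp only [if_neg hU]
    rw [Finset.sum_congr rfl h5, ← Finset.sum_smul, X.z_cyc τ, zero_smul]

/-- the chain map -/
def ccL : (Finset (Fin X.n) → Finset (Fin X.n) → (Y → F)) →ₗ[F] (Finset V → (Y → F)) where
  toFun x := cc X x
  map_add' := by
    intro x x'
    funext T
    unfold cc
    rw [Pi.add_apply, ← Finset.sum_add_distrib]
    refine Finset.sum_congr rfl fun σ _ => ?_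
    rw [← Finset.sum_add_distrib]
    refine Finset.sum_congr rfl fun A _ => ?_
    simp only [Pi.add_apply]
    split_ifs
    · rw [smul_add]
    · rw [add_zero]
  map_smul' := by
    intro r x
    funext T
    unfold cc
    rw [RingHom.id_apply, Pi.smul_apply, Finset.smul_sum]
    refine Finset.sum_congr rfl fun σ _ => ?_
    rw [Finset.smul_sum]
    refine Finset.sum_congr rfl fun A _ => ?_
    simp only [Pi.smul_apply]
    split_ifs
    · rw [smul_comm]
    · rw [smul_zero]

theorem ccL_apply (x : Finset (Fin X.n) → Finset (Fin X.n) → (Y → F)) : ccL X x = cc X x := rfl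

theorem L_inj {σ τ A B : Finset (Fin X.n)} (hA : A ⊆ σ \ X.U) (hB : B ⊆ τ \ X.U) (h : L X σ A = L X τ B) :
    σ = τ ∧ A = B := by
  classical
  have key : ∀ {σ τ A B : Finset (Fin X.n)}, A ⊆ σ \ X.U → B ⊆ τ \ X.U → L X σ A = L X τ B →
      ∀ v ∈ σ, v ∈ τ ∧ (v ∉ X.U → (v ∈ A ↔ v ∈ B)) := by
    intro σ τ A B hA hB h v hv
    have h1 : lv X A v ∈ L X τ B := by
      rw [← h]
      exact Finset.mem_image_of_mem _ hv
    unfold L at h1
    rw [Finset.mem_image] at h1
    obtain ⟨w, hw, he⟩ := h1
    have hwv : w = v := by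
      by_contra hne
      exact X.j_ne w v hne _ _ he
    subst hwv
    refine ⟨hw, fun hU => ?_⟩
    unfold lv at he
    by_cases h2 : w ∈ A <;> by_cases h3 : w ∈ B
    · exact ⟨fun _ => h3, fun _ => h2⟩
    · exfalso
      simp [h2, h3] at he
      exact (X.j_adj w hU).1 he
    · exfalso
      simp [h2, h3] at he
      exact (X.j_adj w hU).1 he.symm
    · exact ⟨fun h => absurd h h2, fun h => absurd h h3⟩
  have h1 : σ = τ := by
    apply Finset.Subset.antisymm
    · intro v hv
      exact (key hA hB h v hv).1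
    · intro v hv
      exact (key hB hA h.symm v hv).1
  refine ⟨h1, ?_⟩
  ext v
  constructor
  · intro hv
    have h2 := Finset.mem_sdiff.1 (hA hv)
    exact ((key hA hB h v h2.1).2 h2.2).1 hv
  · intro hv
    have h2 := Finset.mem_sdiff.1 (hB hv)
    exact ((key hB hA h.symm v h2.1).2 h2.2).1 hv

theorem eta_ne (σ A : Finset (Fin X.n)) : eta X σ A = 1 ∨ eta X σ A = -1 := by
  unfold eta
  have h1 : ∀ (s : Finset (Fin X.n)) (f : Fin X.n → ℤ), (∀ v ∈ s, f v = 1 ∨ f v = -1) →
      (∏ v ∈ s, f v = 1 ∨ ∏ v ∈ s, f v = -1) := by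
    intro s f
    classical
    induction s using Finset.induction_on with
    | empty => intro _; left; simp
    | insert v s hv ih =>
      intro h
      rw [Finset.prod_insert hv]
      rcases h v (Finset.mem_insert_self _ _) with h1 | h1 <;>
        rcases ih (fun w hw => h w (Finset.mem_insert_of_mem hw)) with h2 | h2 <;> simp [h1, h2]
  refine h1 _ _ fun v _ => h1 _ _ fun w _ => ?_
  split_ifs
  · right; rfl
  · left; rfl

theorem cc_L (x : Finset (Fin X.n) → Finset (Fin X.n) → (Y → F)) {σ A : Finset (Fin X.n)} (hA : A ⊆ σ \ X.U) :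
    cc X x (L X σ A) = eta X σ A • x σ A := by
  classical
  unfold cc
  rw [Finset.sum_eq_single σ, Finset.sum_eq_single A]
  · rw [if_pos rfl]
  · intro B hB hne
    rw [if_neg]
    intro h
    exact hne (L_inj X (Finset.mem_powerset.1 hB) hA h).2
  · intro h
    exact absurd (Finset.mem_powerset.2 hA) h
  · intro τ _ hne
    refine Finset.sum_eq_zero fun B hB => ?_
    rw [if_neg]
    intro h
    exact hne (L_inj X (Finset.mem_powerset.1 hB) hA h).1
  · intro h
    exact absurd (Finset.mem_univ _) h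

theorem cc_inj (M : Submodule F (Y → F)) (x : Finset (Fin X.n) → Finset (Fin X.n) → (Y → F)) (hx : x ∈ QQ X a M)
    (h : cc X x = 0) : x = 0 := by
  funext σ A
  by_cases hA : A ⊆ σ \ X.U
  · have h1 := cc_L X x hA
    rw [h, Pi.zero_apply] at h1
    rcases eta_ne X σ A with h2 | h2
    · rw [h2, one_smul] at h1
      exact h1.symm
    · rw [h2, neg_one_smul, zero_eq_neg] at h1
      exact h1
  · exact (hx.1 σ).1 A hA

theorem cc_mem (M : Submodule F (Y → F)) (x : Finset (Fin X.n) → Finset (Fin X.n) → (Y → F)) (hx : x ∈ QQ X a M)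
    (hd : ∀ τ A, A ⊆ τ \ X.U → dd X x τ A = 0) (S : Set V) (hS : ∀ v b, X.j v b ∈ S) :
    cc X x ∈ ZZ G (pull F a) S ∅ (d + 1) := by
  classical
  refine ⟨⟨fun T hT => ?_, fun T t ht => ?_⟩, ?_⟩
  · unfold cc
    refine Finset.sum_eq_zero fun σ _ => Finset.sum_eq_zero fun A hA => ?_
    split_ifs with h
    · by_cases hz : X.z σ = 0
      · rw [hx.2.1 σ hz, Pi.zero_apply, smul_zero]
      · exfalso
        apply hT
        subst h
        refine ⟨clique_L X hz, ?_, ?_⟩
        · intro v hv
          unfold L at hv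
          rw [Finset.mem_coe, Finset.mem_image] at hv
          obtain ⟨w, _, rfl⟩ := hv
          exact hS _ _
        · rw [card_L, X.z_card σ hz]
    · rfl
  · have ht' : t ∈ T := by
      rcases ht with h | h
      · exact h
      · exact absurd h (Set.notMem_empty t)
    have h1 : cc X x T ∈ ET F a T := by
      unfold cc
      refine sum_mem fun σ _ => sum_mem fun A _ => ?_
      split_ifs with h
      · subst h
        exact zsmul_mem ((hx.1 σ).2 A) _
      · exact zero_mem _
    funext y
    exact h1 t ht' y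
  · rw [SetLike.mem_coe, LinearMap.mem_ker]
    funext T
    rw [bd_cc]
    refine Finset.sum_eq_zero fun τ _ => Finset.sum_eq_zero fun A hA => ?_
    rw [hd τ A (Finset.mem_powerset.1 hA), smul_zero, ite_self]

theorem growth (hdim : ∀ T : Finset V, G.IsClique (T : Set V) → finrank F (ET F a T) * 2 ^ T.card = Fintype.card Y)
    (k : ℕ) (hk : ∀ D : Finset (Fin X.n), Disjoint D X.U → finrank F (KD X a D) ≤ k) (S : Set V)
    (hS : ∀ v b, X.j v b ∈ S) :
    finrank F (ET F a (L X X.U ∅)) ≤ finrank F (ZZ G (pull F a) S ∅ (d + 1)) + 2 * (2 ^ X.n * k) := by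
  classical
  obtain ⟨M, hM1, hM2⟩ := exists_M X a hdim k hk
  have h1 := QQ_ge X a M hM1
  obtain ⟨Q, h2, h3, h4⟩ := codim_inf (F := F) (fun τ : Finset (Fin X.n) => ddL (F := F) (Y := Y) X τ) (QQ X a M)
    (fun _ => k) (fun τ => (Submodule.finrank_mono (ddL_mem X a M τ)).trans (hk _ Finset.sdiff_disjoint))
    Finset.univ
  rw [Finset.sum_const, Finset.card_univ, Fintype.card_finset, Fintype.card_fin, smul_eq_mul] at h4
  have h5 : finrank F Q ≤ finrank F (ZZ G (pull F a) S ∅ (d + 1)) := by
    let Φ : Q →ₗ[F] (ZZ G (pull F a) S ∅ (d + 1)) :=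
      { toFun := fun x => ⟨ccL X x.1, cc_mem X a M x.1 (h2 x.2) (fun τ A hA => by
          have h6 := congrFun (h3 τ (Finset.mem_univ _) x.1 x.2) A
          rw [ddL_apply, if_pos hA] at h6
          exact h6) S hS⟩
        map_add' := fun x y => Subtype.ext (map_add (ccL X) x.1 y.1)
        map_smul' := fun r x => Subtype.ext (map_smul (ccL X) r x.1) }
    refine LinearMap.finrank_le_finrank_of_injective (f := Φ) ?_
    rw [injective_iff_map_eq_zero]
    intro x hx
    apply Subtype.ext
    exact cc_inj X a M x.1 (h2 x.2) (congrArg Subtype.val hx)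
  omega

end Pool.Agent.V8H3.LT
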