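import Pool.Agent.V8H10.LT.Std

/-!
# Flag triangulations of the PL sphere
-/

set_option autoImplicit false

noncomputable section

namespace Pool.Agent.V8H3.LT

open Pool.Agent.V8H10.LT

/-- The graph of the cross polytope with the `2 k` vertices `0, …, 2 k - 1`: the vertices `2 i` and `2 i + 1` are not
adjacent to each other, all the other pairs of vertices are adjacent. The flag complex is the boundary of the cross
polytope. -/
def crossPolytope (k : ℕ) : SimpleGraph (Fin (2 * k)) :=
  SimpleGraph.fromRel fun x y => (x : ℕ) / 2 ≠ (y : ℕ) / 2

/-- The flag complex of the graph is a triangulation of the PL sphere of dimension `k - 1`: it is obtained from the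
boundary of the cross polytope by edge subdivisions, their inverses, and relabellings. -/
inductive PLSphere (k : ℕ) : ∀ {n : ℕ}, SimpleGraph (Fin n) → Prop
  | base : PLSphere k (crossPolytope k)
  | sub {n : ℕ} (G : SimpleGraph (Fin n)) (s t : Fin n) : G.Adj s t → PLSphere k G → PLSphere k (subdiv G s t)
  | inv {n : ℕ} (G : SimpleGraph (Fin n)) (s t : Fin n) : G.Adj s t → PLSphere k (subdiv G s t) → PLSphere k G
  | relabel {n : ℕ} (G : SimpleGraph (Fin n)) (σ : Equiv.Perm (Fin n)) : PLSphere k G → PLSphere k (G.comap σ)

theorem PLSphere.subdivided {k m n : ℕ} {G : SimpleGraph (Fin m)} {H : SimpleGraph (Fin n)}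
    (h : Subdivided G H) (hG : PLSphere k G) : PLSphere k H := by
  induction h with
  | refl => exact hG
  | step H s t h1 _ ih => exact PLSphere.sub H s t h1 ih

end Pool.Agent.V8H3.LT
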