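import Pool.Agent.V8H3.LT.Fin
import Pool.Agent.V8H10.LT.Brid

/-!
# Torsion homology growth of triple products of Davis manifolds

`H` is a flag homology sphere of dimension `2 d` with a doubled mod `p` cycle of dimension `d` whose vertices are
coloured by `d + 1` colours. Some iterated edge subdivision `S` of `H` has a Davis manifold `M` (of dimension
`2 d + 1`) such that `M × M × M`, of dimension `2 (3 d + 1) + 1`, has vanishing `L²`-Betti numbers and vanishing
`L²`-torsion, while the torsion of the homology in the middle degree `3 d + 1` of the covers `M_i × M_i × M_i`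
grows exponentially in the index, for every residual chain.
-/

set_option autoImplicit false

noncomputable section

namespace Pool.Agent.V8H3.LT.TripleProductTorsion

open Filter Topology Pool.Agent.V8H10.LT

theorem result (d N : ℕ) (H : SimpleGraph (Fin N)) (hd : 1 ≤ d) (hR : Sphere H ℝ (2 * d + 1))
    (h2 : Sphere H (ZMod 2) (2 * d + 1)) (p : ℕ) [Fact p.Prime] (hp : p ≠ 2) (Z : Doubled (ZMod p) H d)
    (c : Fin Z.n → Fin (d + 1)) (hc : ∀ v w a b, H.Adj (Z.j v a) (Z.j w b) → c v ≠ c w) :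
    ∃ (n : ℕ) (S : SimpleGraph (Fin n)), Subdivided H S ∧ Sphere S ℝ (2 * d + 1) ∧ Sphere S (ZMod 2) (2 * d + 1) ∧
      IsResFin (Gam S) ∧ (free (davis S)).DetL2Acyclic ∧
      (free (davis3 S)).DetL2Acyclic ∧ (free (davis3 S)).l2torsion = 0 ∧
      ∀ (K : ℕ → Subgroup (Gam S)) [∀ i, (K i).Normal], (∀ i, (K i).FiniteIndex) → Antitone K → ⨅ i, K i = ⊥ →
        (∀ b : ℝ, 0 < b → b < 2 ^ n / 2 ^ Z.U.card → ∀ᶠ i in atTop, b ^ 3 * Real.log p ≤ rate (K i) (3 * d + 1)) ∧
        ¬ Tendsto (fun i => rate (K i) (3 * d + 1)) atTop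
          (𝓝 ((-1) ^ (3 * d + 1) * (free (davis3 S)).l2torsion)) := by
  obtain ⟨n, S, h1, h2, h3, -, h5, h6, h7, h8, h9⟩ :=
    Pool.Agent.V8H3.LT.main d N H hd ((sphere_R H).1 hR) ((sphere_2 H).1 h2) p hp (dbl Z) c hc
  refine ⟨n, S, subdivided h1, (sphere_R S).2 h2, (sphere_2 S).2 h3, resFin (G := Gam S) h5, h6, h7, h8, ?_⟩
  intro K hK hf ha hi
  have g1 : ∀ b : ℝ, 0 < b → b < 2 ^ n / 2 ^ Z.U.card → ∀ᶠ i in atTop,
      b ^ 3 * Real.log p ≤ rate (K i) (3 * d + 1) := by
    intro b hb hb2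
    refine (@h9 K hK hf ha hi b hb hb2).mono fun i hi => ?_
    unfold rate
    rw [torsion_eq]
    exact hi
  refine ⟨g1, fun ht => ?_⟩
  have hp1 : (1 : ℝ) < p := by exact_mod_cast (Fact.out : p.Prime).one_lt
  have hlog : 0 < Real.log p := Real.log_pos hp1
  have hq : (0 : ℝ) < 2 ^ n / 2 ^ Z.U.card := by positivity
  have e1 : (free (davis3 S)).l2torsion = 0 := h8
  rw [e1, mul_zero] at ht
  have g2 := g1 (2 ^ n / 2 ^ Z.U.card / 2) (by positivity) (by linarith)
  have hpos : (0 : ℝ) < (2 ^ n / 2 ^ Z.U.card / 2) ^ 3 * Real.log p := by positivity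
  have g3 := (tendsto_order.1 ht).2 _ hpos
  obtain ⟨i, hi1, hi2⟩ := (g2.and g3).exists
  exact absurd hi2 (not_lt.2 hi1)

end Pool.Agent.V8H3.LT.TripleProductTorsion
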